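import Pool.Agent.KS6_76.NM.Free

/-!
# Algebras with an abelian ideal of codimension one
-/

set_option autoImplicit false

namespace Pool.Agent.KS6_76.NM

open ExteriorAlgebra Module

variable {W : Type*} [AddCommGroup W] [Module ℂ W] [FiniteDimensional ℂ W]

/-- The hard Lefschetz property fails for some symplectic form, 2-step case. -/
theorem two_step (D : Dif W) {m : ℕ} (hm : 1 ≤ m) (hW : finrank ℂ W = 2 * (m + 2))
    (h2 : D.B ≤ w2 D.Z) (hne : D.B ≠ ⊥) (huni : ∀ x ∈ ⋀[ℂ]^(2 * m + 3) W, D.d x = 0)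
    {w : ExteriorAlgebra ℂ W} (hw : w ∈ ⋀[ℂ]^2 W) (hdw : D.d w = 0) (hwn : w ^ (m + 2) ≠ 0) :
    ∃ w ∈ ⋀[ℂ]^2 W, D.d w = 0 ∧ w ^ (m + 2) ≠ 0 ∧ ¬ HL D m w := by
  by_cases hHL : HL D m w
  · obtain ⟨rfl, hZ, hB⟩ := Dif.two_step_cases hW hm h2 hne hw hdw hwn hHL
    exact free_case D hZ hB huni
  · exact ⟨w, hw, hdw, hwn, hHL⟩

namespace Dif

variable (D : Dif W)

/-- The annihilators of the terms of the lower central series. -/
noncomputable def stage : ℕ → Submodule ℂ W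
  | 0 => ⊥
  | k + 1 => (w2 (stage k)).comap (D.d ∘ₗ ι ℂ)

/-- The endomorphism `A` with `d v = e ∧ A v`. -/
noncomputable def endo (X : Dual ℂ W) : W →ₗ[ℂ] W := ιInv ∘ₗ D.lie X ∘ₗ ι ℂ

variable {D}

omit [FiniteDimensional ℂ W] in
theorem ι_endo (X : Dual ℂ W) (v : W) : ι ℂ (D.endo X v) = D.lie X (ι ℂ v) := by
  obtain ⟨y, hy⟩ := mem_one.1 (D.lie_mem X (ι_mem v))
  have h1 : D.endo X v = ιInv (D.lie X (ι ℂ v)) := rfl
  rw [h1, ← hy, ι_leftInverse y]

variable {e : W} {X : Dual ℂ W}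

omit [FiniteDimensional ℂ W] in
theorem d_ι_eq (hX : X e = 1) (hA : ∀ v, ∃ u, D.d (ι ℂ v) = ι ℂ e * ι ℂ u) (v : W) :
    D.d (ι ℂ v) = ι ℂ e * ι ℂ (D.endo X v) := by
  obtain ⟨u, hu⟩ := hA v
  rw [ι_endo, D.lie_ι, hu, ic_ι_mul, hX, one_smul, mul_sub, ← mul_assoc (ι ℂ e) (ι ℂ e),
    ι_sq_zero, zero_mul, sub_zero]

theorem d_eq (hX : X e = 1) (hA : ∀ v, ∃ u, D.d (ι ℂ v) = ι ℂ e * ι ℂ u)
    (x : ExteriorAlgebra ℂ W) : D.d x = ι ℂ e * D.lie X x := by
  induction x using induct with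
  | h0 r => rw [D.d_algebraMap, D.lie_algebraMap, mul_zero]
  | hadd a b ha hb => rw [map_add, ha, hb, map_add, mul_add]
  | hι v a ha =>
    rw [D.d_ι_mul, d_ι_eq hX hA, ha, D.lie_mul, ← ι_endo]
    have h1 : ι ℂ v * (ι ℂ e * D.lie X a) = -(ι ℂ e * (ι ℂ v * D.lie X a)) := by
      rw [← mul_assoc, ι_mul_ι, neg_mul, mul_assoc]
    rw [h1]
    noncomm_ring

theorem endo_nilpotent (he : e ∈ D.Z) (he0 : e ≠ 0) (hX : X e = 1)
    (hA : ∀ v, ∃ u, D.d (ι ℂ v) = ι ℂ e * ι ℂ u) {N : ℕ} (hN : D.stage N = ⊤) :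
    ∃ N, (D.endo X) ^ N = 0 := by
  refine ⟨N, ?_⟩
  have hstep : ∀ k, ∀ v ∈ D.stage (k + 1), D.endo X v ∈ D.stage k := by
    intro k v hv
    cases k with
    | zero =>
      have h1 : D.d (ι ℂ v) ∈ w2 (⊥ : Submodule ℂ W) := hv
      have h2 : D.d (ι ℂ v) = 0 := by
        have h3 : w2 (⊥ : Submodule ℂ W) = ⊥ := by
          rw [eq_bot_iff]
          refine Submodule.span_le.2 ?_
          rintro x ⟨a, ha, b, hb, rfl⟩
          rw [(Submodule.mem_bot ℂ).1 ha, map_zero, zero_mul]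
          exact Submodule.zero_mem _
        rw [h3] at h1
        exact (Submodule.mem_bot ℂ).1 h1
      have h3 : ι ℂ (D.endo X v) = 0 := by
        rw [ι_endo, D.lie_ι, h2, map_zero]
      rw [(ι_eq_zero_iff _).1 h3]
      exact Submodule.zero_mem _
    | succ k =>
      have h1 : D.d (ι ℂ v) ∈ w2 (D.stage (k + 1)) := hv
      rw [d_ι_eq hX hA] at h1
      refine mem_of_mul_mem_w2 ?_ he0 h1
      change D.d (ι ℂ e) ∈ w2 (D.stage k)
      rw [D.mem_Z.1 he]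
      exact Submodule.zero_mem _
  have hpow : ∀ k, ∀ v ∈ D.stage k, ((D.endo X) ^ k) v = 0 := by
    intro k
    induction k with
    | zero => intro v hv; rw [(Submodule.mem_bot ℂ).1 hv, map_zero]
    | succ k ih =>
      intro v hv
      rw [pow_succ, Module.End.mul_apply]
      exact ih _ (hstep k v hv)
  ext v
  exact hpow N v (by rw [hN]; trivial)

omit [FiniteDimensional ℂ W] in
theorem lie_pow_zero (X : Dual ℂ W) (N : ℕ) : ∀ i j : ℕ, ∀ a b : W, ((D.endo X) ^ i) a = 0 →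
    ((D.endo X) ^ j) b = 0 → i + j ≤ N + 1 → ((D.lie X) ^ N) (ι ℂ a * ι ℂ b) = 0 := by
  induction N with
  | zero =>
    intro i j a b ha hb hij
    have : i = 0 ∨ j = 0 := by omega
    rcases this with rfl | rfl
    · have : a = 0 := ha
      rw [this, map_zero, zero_mul, map_zero]
    · have : b = 0 := hb
      rw [this, map_zero, mul_zero, map_zero]
  | succ N ih =>
    intro i j a b ha hb hij
    rcases Nat.eq_zero_or_pos i with rfl | hi
    · have : a = 0 := ha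
      rw [this, map_zero, zero_mul, map_zero]
    rcases Nat.eq_zero_or_pos j with rfl | hj
    · have : b = 0 := hb
      rw [this, map_zero, mul_zero, map_zero]
    obtain ⟨i, rfl⟩ : ∃ i', i = i' + 1 := ⟨i - 1, by omega⟩
    obtain ⟨j, rfl⟩ : ∃ j', j = j' + 1 := ⟨j - 1, by omega⟩
    rw [pow_succ, Module.End.mul_apply, D.lie_mul, ← ι_endo, ← ι_endo, map_add,
      ih i (j + 1) _ _ (by rw [pow_succ, Module.End.mul_apply] at ha; exact ha) hb (by omega),
      ih (i + 1) j _ _ ha (by rw [pow_succ, Module.End.mul_apply] at hb; exact hb) (by omega),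
      add_zero]

end Dif

/-- The hard Lefschetz property fails for some symplectic form, case of an abelian ideal of
codimension one. -/
theorem codim_one (D : Dif W) {m : ℕ} (hm : 1 ≤ m) (hW : finrank ℂ W = 2 * (m + 2))
    {e : W} (he : e ∈ D.Z) (he0 : e ≠ 0) (hA : ∀ v, ∃ u, D.d (ι ℂ v) = ι ℂ e * ι ℂ u) {N : ℕ}
    (hN : D.stage N = ⊤) (hne : D.B ≠ ⊥) (huni : ∀ x ∈ ⋀[ℂ]^(2 * m + 3) W, D.d x = 0)
    {w : ExteriorAlgebra ℂ W} (hw : w ∈ ⋀[ℂ]^2 W) (hdw : D.d w = 0) (hwn : w ^ (m + 2) ≠ 0) :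
    ∃ w ∈ ⋀[ℂ]^2 W, D.d w = 0 ∧ w ^ (m + 2) ≠ 0 ∧ ¬ HL D m w := by
  obtain ⟨X, -, hX⟩ := exists_dual (S := (⊥ : Submodule ℂ W)) (v := e) (by
    rwa [Submodule.mem_bot])
  set A := D.endo X with hAdef
  have hd : ∀ x, D.d x = ι ℂ e * D.lie X x := Dif.d_eq hX hA
  have hιA : ∀ v, ι ℂ (A v) = D.lie X (ι ℂ v) := Dif.ι_endo X
  obtain ⟨N', hnil⟩ := Dif.endo_nilpotent he he0 hX hA hN
  rw [← hAdef] at hnil
  have hAe : A e = 0 := by
    have h1 : ι ℂ (A e) = 0 := by rw [hιA, D.lie_ι, D.mem_Z.1 he, map_zero]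
    exact (ι_eq_zero_iff _).1 h1
  have hee : ∀ x, ι ℂ e * (ι ℂ e * x) = 0 := fun x => by rw [← mul_assoc, ι_sq_zero, zero_mul]
  -- the vector `p`
  obtain ⟨p, hp⟩ := mu_surjective hW hw hwn (-e)
  have hpe : p e = 0 := by
    have h1 := mu_skew hw p p
    rw [hp, map_neg] at h1
    have h3 : (2 : ℂ) * p e = 0 := by linear_combination -h1
    exact (mul_eq_zero.1 h3).resolve_left two_ne_zero
  have hicp : ic p w = -ι ℂ e := by rw [← ι_mu hw, hp, map_neg]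
  have hp0 : p ≠ 0 := by
    rintro rfl
    rw [map_zero] at hp
    exact he0 (neg_eq_zero.1 hp.symm)
  have hpA : ∀ v, p (A v) = 0 := by
    intro v
    have h1 := contract_top hW hw p (A v)
    have h3 : w ^ (m + 1) * ic p w * ι ℂ (A v) = -D.d (w ^ (m + 1) * ι ℂ v) := by
      rw [D.d_pow_mul hw hdw, hd (ι ℂ v), ← hιA, hicp]
      noncomm_ring
    rw [h3, huni _ (by
      have := mul_mem_deg (pow_mem_deg hw (m + 1)) (ι_mem v)
      rwa [show 2 * (m + 1) + 1 = 2 * m + 3 by ring] at this), neg_zero, smul_zero, neg_zero] at h1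
    exact (smul_eq_zero.1 h1).resolve_right hwn
  by_cases hall : ∀ s, p s = 0 → D.d (ι ℂ s) = 0
  · -- the 2-step case
    refine two_step D hm hW ?_ hne huni hw hdw hwn
    rintro _ ⟨v, rfl⟩
    have h1 : D.d (ι ℂ v) = ι ℂ e * ι ℂ (A v) := Dif.d_ι_eq hX hA v
    change D.d (ι ℂ v) ∈ w2 D.Z
    rw [h1]
    exact w2_mul_mem he (D.mem_Z.2 (hall _ (hpA v)))
  push Not at hall
  obtain ⟨s, hps, hs⟩ := hall
  have hes : ι ℂ e * ι ℂ (A s) ≠ 0 := by
    rw [hιA, ← hd]; exact hs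
  -- the vector `r`
  obtain ⟨r, hr⟩ := mu_surjective hW hw hwn (A (mu w X))
  have hre : r e = 0 := by
    have h1 := mu_skew hw r p
    rw [hp, hr, hpA, neg_zero, map_neg, neg_eq_zero] at h1
    exact h1
  -- the derivation `δ`
  let δ : ExteriorAlgebra ℂ W →ₗ[ℂ] ExteriorAlgebra ℂ W :=
    D.lie X - LinearMap.mulLeft ℂ (ι ℂ e) ∘ₗ ic r
  have hδ : ∀ x, δ x = D.lie X x - ι ℂ e * ic r x := fun x => rfl
  have hδmul : ∀ x y, δ (x * y) = δ x * y + x * δ y := by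
    intro x y
    have h1 : ι ℂ e * inv x = x * ι ℂ e := by
      have := ι_mul_eq e (inv x)
      rwa [inv_inv] at this
    rw [hδ, hδ, hδ, D.lie_mul, ic_mul, mul_add, ← mul_assoc (ι ℂ e) (inv x), h1]
    noncomm_ring
  have hlieclosed : ∀ v ∈ ⋀[ℂ]^2 W, D.d v = 0 → D.lie X v = ι ℂ e * ι ℂ (A (mu v X)) := by
    intro v hv hdv
    rw [D.lie_apply, hdv, map_zero, zero_add, ← ι_mu hv, hd, hιA]
  have hδw : δ w = 0 := by
    rw [hδ, hlieclosed w hw hdw, ← ι_mu hw, hr, sub_self]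
  have hδtop : ∀ x ∈ ⋀[ℂ]^(2 * m + 4) W, δ x = 0 := by
    intro x hx
    have h1 : D.d x = 0 := eq_zero_of_deg (n := 2 * m + 4 + 1) (by omega) (D.d_mem hx)
    have h3 : D.lie X x = 0 := by
      rw [D.lie_apply, h1, map_zero, huni _ (ic_mem X hx), add_zero]
    have h4 : ι ℂ e * x = 0 := eq_zero_of_deg (n := 1 + (2 * m + 4)) (by omega)
      (mul_mem_deg (ι_mem e) hx)
    have h5 : ic r (ι ℂ e * x) = 0 := by rw [h4, map_zero]
    rw [ic_ι_mul, hre, zero_smul, zero_sub, neg_eq_zero] at h5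
    rw [hδ, h3, h5, sub_zero]
  have hδpow : ∀ k, δ (w ^ k) = 0 := by
    intro k
    induction k with
    | zero =>
      have h1 : (1 : ExteriorAlgebra ℂ W) = algebraMap ℂ _ 1 := (map_one _).symm
      rw [pow_zero, hδ, h1, D.lie_algebraMap, ic_algebraMap, mul_zero, sub_zero]
    | succ k ih => rw [pow_succ, hδmul, ih, hδw, zero_mul, mul_zero, add_zero]
  have hlie_e : ∀ x, D.lie X (ι ℂ e * x) = ι ℂ e * D.lie X x := by
    intro x
    rw [D.lie_mul, ← hιA, hAe, map_zero, zero_mul, zero_add]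
  -- the main computation
  have hmain : ∀ b ∈ ⋀[ℂ]^2 W, ι ℂ e * (w ^ m * b) = 0 → ι ℂ e * D.lie X (D.lie X b) = 0 →
      ι ℂ e * D.lie X b ≠ 0 → ¬ HL D m w := by
    intro b hb h1 h3 h4 hHL
    have hδb : δ b ∈ ⋀[ℂ]^2 W := by
      rw [hδ]
      exact Submodule.sub_mem _ (D.lie_mem X hb) (mul_mem_deg (m := 1) (n := 1) (ι_mem e)
        (ic_mem r hb))
    have hdδ : D.d (δ b) = 0 := by
      rw [hd, hδ, map_sub, hlie_e, mul_sub, h3, hee, sub_zero]
    obtain ⟨y, hy⟩ := hHL (δ b) hδb hdδ (fun v hv hdv => by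
      have t1 : δ (w ^ m * b * v) = 0 := hδtop _ (by
        have := mul_mem_deg (mul_mem_deg (pow_mem_deg hw m) hb) hv
        rwa [show 2 * m + 2 + 2 = 2 * m + 4 by ring] at this)
      rw [hδmul, hδmul, hδpow, zero_mul, zero_add] at t1
      have t2 : δ v = ι ℂ e * (ι ℂ (A (mu v X)) - ι ℂ (mu v r)) := by
        rw [hδ, hlieclosed v hv hdv, mul_sub, ι_mu hv]
      have t3 : w ^ m * b * δ v = 0 := by
        rw [t2, ← mul_assoc]
        have t4 : w ^ m * b * ι ℂ e = 0 := by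
          rw [mul_assoc, two_comm hb, ← mul_assoc, two_pow_comm hw, mul_assoc, h1]
        rw [t4, zero_mul]
      rw [t3, add_zero] at t1
      exact t1)
    obtain ⟨u, hu⟩ := D.mem_B.1 (D.mem_B_of_exact hδb hy)
    apply h4
    have h5 : ι ℂ e * δ b = 0 := by rw [← hu, hd, hee]
    rw [hδ, mul_sub, hee, sub_zero] at h5
    exact h5
  -- the vector `y₀`
  obtain ⟨y₀, hy₀⟩ : ∃ y₀, p y₀ = 1 := by
    obtain ⟨v, hv⟩ : ∃ v, p v ≠ 0 := by
      by_contra hcon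
      push Not at hcon
      exact hp0 (LinearMap.ext hcon)
    exact ⟨(p v)⁻¹ • v, by rw [map_smul, smul_eq_mul, inv_mul_cancel₀ hv]⟩
  -- the choice of `s'`
  obtain ⟨s', hps', hψ, hs'⟩ : ∃ s', p s' = 0 ∧
      ι ℂ y₀ * (ι ℂ e * (w ^ m * (ι ℂ s * ι ℂ s'))) = 0 ∧ s' ∉ Submodule.span ℂ (Set.range ![e, s, A s]) := by
    let ψ : W →ₗ[ℂ] ExteriorAlgebra ℂ W :=
      LinearMap.mulLeft ℂ (ι ℂ y₀) ∘ₗ LinearMap.mulLeft ℂ (ι ℂ e) ∘ₗ LinearMap.mulLeft ℂ (w ^ m) ∘ₗ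
        LinearMap.mulLeft ℂ (ι ℂ s) ∘ₗ ι ℂ
    have hψ : ∀ v, ψ v = ι ℂ y₀ * (ι ℂ e * (w ^ m * (ι ℂ s * ι ℂ v))) := fun v => rfl
    by_contra hcon
    push Not at hcon
    have h1 := LinearMap.finrank_range_add_finrank_ker (ψ.domRestrict (LinearMap.ker p))
    have h3 : finrank ℂ (LinearMap.range (ψ.domRestrict (LinearMap.ker p))) ≤ 1 := by
      have h4 : LinearMap.range (ψ.domRestrict (LinearMap.ker p)) ≤ ⋀[ℂ]^(finrank ℂ W) W := by
        rintro _ ⟨v, rfl⟩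
        have := mul_mem_deg (ι_mem y₀) (mul_mem_deg (ι_mem e) (mul_mem_deg (pow_mem_deg hw m)
          (ιι_mem s (v : W))))
        rwa [show 1 + (1 + (2 * m + 2)) = finrank ℂ W by omega] at this
      have h5 := Submodule.finrank_mono h4
      rwa [exteriorPower.finrank_eq, Nat.choose_self] at h5
    have h4 : finrank ℂ (LinearMap.ker (ψ.domRestrict (LinearMap.ker p))) ≤ 3 := by
      have h5 : (LinearMap.ker (ψ.domRestrict (LinearMap.ker p))).map (LinearMap.ker p).subtype ≤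
          Submodule.span ℂ (Set.range ![e, s, A s]) := by
        rintro _ ⟨v, hv, rfl⟩
        exact hcon v v.2 hv
      have h6 := Submodule.finrank_mono h5
      rw [Submodule.finrank_map_subtype_eq] at h6
      have h7 := finrank_range_le_card (R := ℂ) ![e, s, A s]
      rw [Fintype.card_fin] at h7
      exact h6.trans h7
    have h5 : finrank ℂ (LinearMap.ker p) + 1 = finrank ℂ W :=
      Module.Dual.finrank_ker_add_one_of_ne_zero hp0
    omega
  have hb₀ : ι ℂ e * (w ^ m * (ι ℂ s * ι ℂ s')) = 0 := by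
    have h1 : ic p (ι ℂ e * (w ^ m * (ι ℂ s * ι ℂ s'))) = 0 := by
      rw [ic_ι_mul, hpe, zero_smul, zero_sub, neg_eq_zero, ic_mul, ic_ι_mul, hps, zero_smul, ic_ι,
        hps', map_zero, mul_zero, sub_zero, mul_zero, add_zero]
      cases m with
      | zero => omega
      | succ k =>
        rw [ic_pow_succ p hw k, hicp, mul_neg, smul_neg, neg_mul, mul_neg, neg_eq_zero,
          smul_mul_assoc, mul_smul_comm, two_pow_comm hw, mul_assoc, ← mul_assoc (ι ℂ e) (ι ℂ e),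
          ι_sq_zero, zero_mul, smul_zero]
    have h3 : ic p (ι ℂ y₀ * (ι ℂ e * (w ^ m * (ι ℂ s * ι ℂ s')))) = 0 := by rw [hψ, map_zero]
    rw [ic_ι_mul, hy₀, one_smul, h1, mul_zero, sub_zero] at h3
    exact h3
  -- linear independence
  have hAs : A s ≠ 0 := fun h => hes (by rw [h, map_zero, mul_zero])
  have hiter : ∀ t : ℂ, A s ≠ t • A (A s) := by
    intro t h
    have h1 : ∀ k : ℕ, A s = t ^ k • (A ^ k) (A s) := by
      intro k
      induction k with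
      | zero => simp
      | succ k ih =>
        have e1 : (A ^ (k + 1)) (A s) = (A ^ k) (A (A s)) := by
          rw [pow_succ, Module.End.mul_apply]
        rw [e1, pow_succ, mul_smul, ← map_smul, ← h]
        exact ih
    have h3 := h1 N'
    rw [hnil, LinearMap.zero_apply, smul_zero] at h3
    exact hAs h3
  have hli3 : LinearIndependent ℂ ![e, s, A s] := by
    rw [Fintype.linearIndependent_iff]
    intro g hg
    have hg' : g 0 • e + g 1 • s + g 2 • A s = 0 := by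
      rw [← hg, Fin.sum_univ_three]; rfl
    have h1 : g 1 • A s + g 2 • A (A s) = 0 := by
      have := congrArg A hg'
      simpa [hAe] using this
    have g1 : g 1 = 0 := by
      by_contra h
      refine hiter (-((g 1)⁻¹ * g 2)) ?_
      have h3 : g 1 • A s = -(g 2 • A (A s)) := eq_neg_of_add_eq_zero_left h1
      have h4 := congrArg (fun v => (g 1)⁻¹ • v) h3
      simp only [smul_neg, smul_smul, inv_mul_cancel₀ h, one_smul] at h4
      rw [neg_smul]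
      exact h4
    rw [g1, zero_smul, add_zero] at hg'
    have g2 : g 2 = 0 := by
      by_contra h
      have h3 : g 2 • A s = -(g 0 • e) := by
        rw [add_comm] at hg'
        exact eq_neg_of_add_eq_zero_left hg'
      have h4 : g 2 • (ι ℂ e * ι ℂ (A s)) = 0 := by
        rw [← mul_smul_comm, ← map_smul, h3, map_neg, map_smul, mul_neg, mul_smul_comm, ι_sq_zero,
          smul_zero, neg_zero]
      exact hes ((smul_eq_zero.1 h4).resolve_left h)
    have g0 : g 0 = 0 := by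
      rw [g2, zero_smul, add_zero] at hg'
      exact (smul_eq_zero.1 hg').resolve_right he0
    intro i
    fin_cases i
    · exact g0
    · exact g1
    · exact g2
  have hprod : ι ℂ s' * (ι ℂ e * (ι ℂ s * ι ℂ (A s))) ≠ 0 := by
    have h1 : LinearIndependent ℂ (Fin.cons s' ![e, s, A s] : Fin 4 → W) :=
      linearIndependent_finCons.2 ⟨hli3, hs'⟩
    have h3 := ιMulti_ne_zero h1
    rw [ιMulti_apply] at h3
    simpa [List.ofFn_succ, mul_assoc] using h3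
  have hf1 : ι ℂ e * D.lie X (ι ℂ s * ι ℂ s') ≠ 0 := by
    intro h0
    apply hprod
    rw [D.lie_mul, ← hιA, ← hιA, mul_add] at h0
    have h1 : ι ℂ s * (ι ℂ e * (ι ℂ (A s) * ι ℂ s') + ι ℂ e * (ι ℂ s * ι ℂ (A s'))) =
        ι ℂ s' * (ι ℂ e * (ι ℂ s * ι ℂ (A s))) := by
      have t1 : ι ℂ s * (ι ℂ e * (ι ℂ s * ι ℂ (A s'))) = 0 := aba _ _ _
      have t2 : ι ℂ s * ι ℂ e = -(ι ℂ e * ι ℂ s) := ι_mul_ι _ _
      have t3 : ι ℂ e * ι ℂ s' = -(ι ℂ s' * ι ℂ e) := ι_mul_ι _ _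
      have t4 : (ι ℂ s * ι ℂ (A s)) * ι ℂ s' = ι ℂ s' * (ι ℂ s * ι ℂ (A s)) :=
        two_comm (ιι_mem _ _) _
      rw [mul_add, t1, add_zero]
      calc ι ℂ s * (ι ℂ e * (ι ℂ (A s) * ι ℂ s'))
          = (ι ℂ s * ι ℂ e) * (ι ℂ (A s) * ι ℂ s') := by noncomm_ring
        _ = -(ι ℂ e * ((ι ℂ s * ι ℂ (A s)) * ι ℂ s')) := by rw [t2]; noncomm_ring
        _ = -((ι ℂ e * ι ℂ s') * (ι ℂ s * ι ℂ (A s))) := by rw [t4]; noncomm_ring
        _ = _ := by rw [t3]; noncomm_ring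
    rw [← h1, h0, mul_zero]
  -- the iteration
  have hliepow : ∀ k, ∃ y, D.lie X (w ^ k) = ι ℂ e * y := by
    intro k
    induction k with
    | zero =>
      refine ⟨0, ?_⟩
      have h1 : (1 : ExteriorAlgebra ℂ W) = algebraMap ℂ _ 1 := (map_one _).symm
      rw [pow_zero, h1, D.lie_algebraMap, mul_zero]
    | succ k ih =>
      obtain ⟨y, hy⟩ := ih
      refine ⟨y * w + w ^ k * ι ℂ (A (mu w X)), ?_⟩
      rw [pow_succ, D.lie_mul, hy, hlieclosed w hw hdw, mul_add, mul_assoc (ι ℂ e) y w,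
        ← mul_assoc (w ^ k) (ι ℂ e), two_pow_comm hw k (ι ℂ e), mul_assoc (ι ℂ e) (w ^ k)]
  have hpres : ∀ x, ι ℂ e * (w ^ m * x) = 0 → ι ℂ e * (w ^ m * D.lie X x) = 0 := by
    intro x hx
    obtain ⟨y, hy⟩ := hliepow m
    have h1 : D.lie X (ι ℂ e * (w ^ m * x)) = 0 := by rw [hx, map_zero]
    rw [hlie_e, D.lie_mul, hy, mul_add, mul_assoc (ι ℂ e) y, hee, zero_add] at h1
    exact h1
  let f : ℕ → ExteriorAlgebra ℂ W := fun j => ι ℂ e * ((D.lie X) ^ j) (ι ℂ s * ι ℂ s')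
  have hfsucc : ∀ j, f (j + 1) = D.lie X (f j) := by
    intro j
    change ι ℂ e * ((D.lie X) ^ (j + 1)) _ = D.lie X (ι ℂ e * ((D.lie X) ^ j) _)
    rw [hlie_e, pow_succ', Module.End.mul_apply]
  have hex : ∃ j, f j = 0 := by
    refine ⟨2 * N', ?_⟩
    change ι ℂ e * ((D.lie X) ^ (2 * N')) _ = 0
    rw [Dif.lie_pow_zero X (2 * N') N' N' s s' (by rw [← hAdef, hnil]; rfl)
      (by rw [← hAdef, hnil]; rfl) (by omega), mul_zero]
  classical
  have hfj := Nat.find_spec hex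
  have hmin : ∀ j, j < Nat.find hex → f j ≠ 0 := fun j hj => Nat.find_min hex hj
  have hf1' : f 1 ≠ 0 := by
    change ι ℂ e * ((D.lie X) ^ 1) _ ≠ 0
    rw [pow_one]; exact hf1
  have hf0 : f 0 ≠ 0 := fun h => hf1' (by rw [hfsucc 0, h, map_zero])
  obtain ⟨j, hj⟩ : ∃ j, Nat.find hex = j + 2 := by
    have h1 : Nat.find hex ≠ 0 := fun h => hf0 (h ▸ hfj)
    have h3 : Nat.find hex ≠ 1 := fun h => hf1' (h ▸ hfj)
    exact ⟨Nat.find hex - 2, by omega⟩
  have hpows : ∀ j, ι ℂ e * (w ^ m * ((D.lie X) ^ j) (ι ℂ s * ι ℂ s')) = 0 ∧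
      ((D.lie X) ^ j) (ι ℂ s * ι ℂ s') ∈ ⋀[ℂ]^2 W := by
    intro j
    induction j with
    | zero => exact ⟨hb₀, ιι_mem _ _⟩
    | succ j ih =>
      rw [pow_succ', Module.End.mul_apply]
      exact ⟨hpres _ ih.1, D.lie_mem X ih.2⟩
  refine ⟨w, hw, hdw, hwn, hmain (((D.lie X) ^ j) (ι ℂ s * ι ℂ s')) (hpows j).2 (hpows j).1 ?_ ?_⟩
  · have h1 : f (j + 2) = 0 := hj ▸ hfj
    change ι ℂ e * ((D.lie X) ^ (j + 2)) _ = 0 at h1
    rwa [pow_succ', pow_succ', Module.End.mul_apply, Module.End.mul_apply] at h1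
  · have h1 : f (j + 1) ≠ 0 := hmin _ (by omega)
    change ι ℂ e * ((D.lie X) ^ (j + 1)) _ ≠ 0 at h1
    rwa [pow_succ', Module.End.mul_apply] at h1

end Pool.Agent.KS6_76.NM
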