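import Pool.Agent.KS6_76.NM.Top

/-!
# The even cohomology ring of the complex of invariant forms
-/

set_option autoImplicit false

namespace Pool.Agent.KS6_76.NM

open ExteriorAlgebra Module

variable {W : Type} [AddCommGroup W] [Module ℂ W]

namespace Dif

variable (D : Dif W)

/-- The algebra of closed forms of even degree. -/
noncomputable def Closed : Subalgebra ℂ (ExteriorAlgebra ℂ W) where
  carrier := {x | inv x = x ∧ D.d x = 0}
  mul_mem' := by
    rintro x y ⟨hx, hx'⟩ ⟨hy, hy'⟩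
    refine ⟨by rw [map_mul, hx, hy], ?_⟩
    rw [D.mul, hx', hy', mul_zero, zero_mul, add_zero]
  add_mem' := by
    rintro x y ⟨hx, hx'⟩ ⟨hy, hy'⟩
    exact ⟨by rw [map_add, hx, hy], by rw [map_add, hx', hy', add_zero]⟩
  algebraMap_mem' := by
    intro r
    exact ⟨AlgHom.commutes _ _, D.d_algebraMap r⟩

variable {D} in
theorem Closed.inv_eq (x : D.Closed) : inv (x : ExteriorAlgebra ℂ W) = x := x.2.1
variable {D} in
theorem Closed.d_eq (x : D.Closed) : D.d (x : ExteriorAlgebra ℂ W) = 0 := x.2.2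

theorem even_comm {x : ExteriorAlgebra ℂ W} (hx : inv x = x) (y : ExteriorAlgebra ℂ W) :
    x * y = y * x := by
  induction y using induct with
  | h0 r => exact (Algebra.commutes r x).symm
  | hadd a b ha hb => rw [mul_add, ha, hb, add_mul]
  | hι v a ha =>
    have h1 := ι_mul_eq v x
    rw [hx] at h1
    rw [← mul_assoc, ← h1, mul_assoc, ha, mul_assoc]

noncomputable instance : CommRing D.Closed :=
  { (inferInstance : Ring D.Closed) with
    mul_comm := fun x y => Subtype.ext (even_comm x.2.1 y) }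

/-- The ideal of exact forms. -/
noncomputable def Exact : Ideal D.Closed where
  carrier := {z | ∃ y : ExteriorAlgebra ℂ W, D.d y = (z : ExteriorAlgebra ℂ W)}
  add_mem' := by
    rintro _ _ ⟨x, hx'⟩ ⟨y, hy'⟩
    exact ⟨x + y, by rw [map_add, hx', hy']; rfl⟩
  zero_mem' := ⟨0, by simp⟩
  smul_mem' := by
    rintro w _ ⟨y, hy'⟩
    refine ⟨w * y, ?_⟩
    rw [D.mul, Closed.inv_eq w, Closed.d_eq w, zero_mul, zero_add, hy']; rfl

/-- The even part of the cohomology ring. -/
def Hev : Type := D.Closed ⧸ D.Exact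

noncomputable instance : CommRing D.Hev := inferInstanceAs (CommRing (D.Closed ⧸ D.Exact))

noncomputable instance : Algebra ℂ D.Hev := inferInstanceAs (Algebra ℂ (D.Closed ⧸ D.Exact))

/-- The cohomology class of a closed form. -/
noncomputable def cls : D.Closed →ₐ[ℂ] D.Hev :=
  (Ideal.Quotient.mkₐ ℂ D.Exact : D.Closed →ₐ[ℂ] (D.Closed ⧸ D.Exact))

theorem cls_surjective : Function.Surjective D.cls := Ideal.Quotient.mkₐ_surjective ℂ D.Exact

theorem cls_eq_zero {z : D.Closed} :
    D.cls z = 0 ↔ ∃ y : ExteriorAlgebra ℂ W, D.d y = (z : ExteriorAlgebra ℂ W) := by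
  have : D.cls z = 0 ↔ z ∈ D.Exact := Ideal.Quotient.eq_zero_iff_mem
  rw [this]; rfl

/-- The classes of degree `2k`. -/
noncomputable def deg (k : ℕ) : Submodule ℂ D.Hev :=
  ((⋀[ℂ]^(2 * k) W).comap D.Closed.val.toLinearMap).map D.cls.toLinearMap

theorem mem_deg {k : ℕ} {x : D.Hev} :
    x ∈ D.deg k ↔ ∃ z : D.Closed, (z : ExteriorAlgebra ℂ W) ∈ ⋀[ℂ]^(2 * k) W ∧ D.cls z = x := by
  rw [deg, Submodule.mem_map]
  rfl

theorem deg_zero : D.deg 0 = Submodule.span ℂ {1} := by
  apply le_antisymm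
  · intro x hx
    obtain ⟨z, hz, rfl⟩ := D.mem_deg.1 hx
    have hz' : (z : ExteriorAlgebra ℂ W) ∈ (1 : Submodule ℂ (ExteriorAlgebra ℂ W)) := by
      have h0 : (⋀[ℂ]^(2 * 0) W) = (1 : Submodule ℂ (ExteriorAlgebra ℂ W)) := by
        simp [exteriorPower]
      rwa [h0] at hz
    obtain ⟨r, hr⟩ := Submodule.mem_one.1 hz'
    have : z = algebraMap ℂ D.Closed r := Subtype.ext hr.symm
    rw [this, AlgHom.commutes, Algebra.algebraMap_eq_smul_one]
    exact Submodule.smul_mem _ _ (Submodule.mem_span_singleton_self _)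
  · rw [Submodule.span_singleton_le_iff_mem, D.mem_deg]
    exact ⟨1, one_mem_zero, map_one _⟩

theorem mul_mem_deg_add {i j : ℕ} {x y : D.Hev} (hx : x ∈ D.deg i) (hy : y ∈ D.deg j) :
    x * y ∈ D.deg (i + j) := by
  obtain ⟨z, hz, rfl⟩ := D.mem_deg.1 hx
  obtain ⟨w, hw, rfl⟩ := D.mem_deg.1 hy
  refine D.mem_deg.2 ⟨z * w, ?_, map_mul _ _ _⟩
  have := mul_mem_deg hz hw
  rwa [← mul_add] at this

variable [FiniteDimensional ℂ W]

instance : FiniteDimensional ℂ D.Closed :=
  inferInstanceAs (FiniteDimensional ℂ (Subalgebra.toSubmodule D.Closed))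

instance : Module.Finite ℂ D.Hev :=
  Module.Finite.of_surjective D.cls.toLinearMap D.cls_surjective

theorem deg_eq_bot {k : ℕ} (hk : finrank ℂ W < 2 * k) {x : D.Hev} (hx : x ∈ D.deg k) : x = 0 := by
  obtain ⟨z, hz, rfl⟩ := D.mem_deg.1 hx
  have : z = 0 := Subtype.ext (eq_zero_of_deg hk hz)
  rw [this, map_zero]

/-! ### Components -/

/-- The component of degree `2k` of a closed form. -/
noncomputable def compC (k : ℕ) : D.Closed →ₗ[ℂ] D.Closed where
  toFun z := ⟨comp (2 * k) z, by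
    constructor
    · change inv (comp (2 * k) (z : ExteriorAlgebra ℂ W)) = comp (2 * k) (z : ExteriorAlgebra ℂ W)
      rw [← comp_inv, Closed.inv_eq]
    · rw [← D.comp_d, Closed.d_eq, map_zero]⟩
  map_add' a b := Subtype.ext (map_add _ _ _)
  map_smul' c a := Subtype.ext (map_smul _ _ _)

/-- The component of degree `2k` of a class. -/
noncomputable def compH (k : ℕ) : D.Hev →ₗ[ℂ] D.Hev :=
  ((D.Exact.restrictScalars ℂ).liftQ (D.cls.toLinearMap ∘ₗ D.compC k) (by
    rintro z ⟨y, hy⟩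
    change D.cls (D.compC k z) = 0
    rw [D.cls_eq_zero]
    change ∃ y, D.d y = comp (2 * k) (z : ExteriorAlgebra ℂ W)
    cases k with
    | zero => exact ⟨0, by rw [map_zero, mul_zero, ← hy, D.comp_zero_d]⟩
    | succ k => exact ⟨comp (2 * k + 1) y, by rw [← hy, ← D.comp_d]; rfl⟩)) ∘ₗ
  (Submodule.Quotient.restrictScalarsEquiv ℂ D.Exact).symm.toLinearMap

theorem compH_cls (k : ℕ) (z : D.Closed) : D.compH k (D.cls z) = D.cls (D.compC k z) := rfl

theorem compH_same {k : ℕ} {x : D.Hev} (hx : x ∈ D.deg k) : D.compH k x = x := by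
  obtain ⟨z, hz, rfl⟩ := D.mem_deg.1 hx
  rw [compH_cls]
  congr 1
  exact Subtype.ext (comp_same hz)

theorem compH_ne {j k : ℕ} (h : j ≠ k) {x : D.Hev} (hx : x ∈ D.deg j) : D.compH k x = 0 := by
  obtain ⟨z, hz, rfl⟩ := D.mem_deg.1 hx
  rw [compH_cls]
  have : D.compC k z = 0 := Subtype.ext (comp_ne (by omega) hz)
  rw [this, map_zero]

theorem compH_mem (k : ℕ) (x : D.Hev) : D.compH k x ∈ D.deg k := by
  obtain ⟨z, rfl⟩ := D.cls_surjective x
  exact D.mem_deg.2 ⟨D.compC k z, comp_mem _ _, rfl⟩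

theorem sum_compH {n : ℕ} (hn : finrank ℂ W = 2 * n) (x : D.Hev) :
    ∑ k ∈ Finset.range (n + 1), D.compH k x = x := by
  obtain ⟨z, rfl⟩ := D.cls_surjective x
  simp only [compH_cls]
  rw [← map_sum]
  congr 1
  apply Subtype.ext
  rw [AddSubmonoidClass.coe_finsetSum]
  have h1 := sum_comp (z : ExteriorAlgebra ℂ W)
  rw [hn] at h1
  have h2 : ∀ m : ℕ, ∑ k ∈ Finset.range (m + 1), comp (2 * k) (z : ExteriorAlgebra ℂ W) =
      ∑ k ∈ Finset.range (2 * m + 1), comp k (z : ExteriorAlgebra ℂ W) := by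
    intro m
    induction m with
    | zero => simp
    | succ m ih =>
      rw [Finset.sum_range_succ, ih, show 2 * (m + 1) + 1 = 2 * m + 1 + 1 + 1 by ring,
        Finset.sum_range_succ _ (2 * m + 1 + 1), Finset.sum_range_succ _ (2 * m + 1),
        comp_odd (Closed.inv_eq z) m, add_zero]
      rfl
  rw [← h1, ← h2]
  rfl

theorem direct {n : ℕ} (hn : finrank ℂ W = 2 * n) : DirectSum.IsInternal D.deg := by
  rw [DirectSum.isInternal_submodule_iff_iSupIndep_and_iSup_eq_top]
  constructor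
  · rw [iSupIndep_def]
    intro i
    rw [Submodule.disjoint_def]
    intro x hx hx'
    rw [← D.compH_same hx]
    have h1 : (⨆ j, ⨆ (_ : j ≠ i), D.deg j) ≤ LinearMap.ker (D.compH i) := by
      refine iSup₂_le fun j hj y hy => ?_
      exact D.compH_ne hj hy
    exact h1 hx'
  · rw [eq_top_iff]
    intro x _
    rw [← D.sum_compH hn x]
    exact Submodule.sum_mem _ fun k _ => Submodule.mem_iSup_of_mem k (D.compH_mem k x)

/-! ### Integration -/

variable (huni : ∀ x, top W (D.d x) = 0)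

/-- Integration. -/
noncomputable def integral : D.Hev →ₗ[ℂ] ℂ :=
  ((D.Exact.restrictScalars ℂ).liftQ (top W ∘ₗ D.Closed.val.toLinearMap) (by
    rintro z ⟨y, hy⟩
    change top W (z : ExteriorAlgebra ℂ W) = 0
    rw [← hy, huni])) ∘ₗ
  (Submodule.Quotient.restrictScalarsEquiv ℂ D.Exact).symm.toLinearMap

theorem integral_cls (z : D.Closed) :
    D.integral huni (D.cls z) = top W (z : ExteriorAlgebra ℂ W) := rfl

theorem integral_deg {k : ℕ} (hk : 2 * k ≠ finrank ℂ W) {x : D.Hev} (hx : x ∈ D.deg k) :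
    D.integral huni x = 0 := by
  obtain ⟨z, hz, rfl⟩ := D.mem_deg.1 hx
  rw [integral_cls]
  exact top_deg hk hz

theorem integral_top {n : ℕ} (hn : finrank ℂ W = 2 * n) {x : D.Hev} (hx : x ∈ D.deg n)
    (h : D.integral huni x = 0) : x = 0 := by
  obtain ⟨z, hz, rfl⟩ := D.mem_deg.1 hx
  rw [integral_cls] at h
  rw [← hn] at hz
  have : z = 0 := by
    by_contra hne
    exact top_ne_zero hz (fun h0 => hne (Subtype.ext h0)) h
  rw [this, map_zero]

/-- **Poincaré duality.** -/
theorem duality (hN : Even (finrank ℂ W)) (x : D.Hev) (h : ∀ y, D.integral huni (x * y) = 0) :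
    x = 0 := by
  obtain ⟨z, rfl⟩ := D.cls_surjective x
  rw [cls_eq_zero]
  have hz : ∀ w : D.Closed, top W ((z : ExteriorAlgebra ℂ W) * w) = 0 := by
    intro w
    have := h (D.cls w)
    rw [← map_mul, integral_cls] at this
    exact this
  -- the functional `w ↦ top (z w)` vanishes on closed forms
  have hker : LinearMap.ker D.d ≤
      LinearMap.ker (top W ∘ₗ LinearMap.mulLeft ℂ (z : ExteriorAlgebra ℂ W)) := by
    intro w hw
    have hw' : D.d w = 0 := hw
    have hdi : D.d (inv w) = 0 := by rw [D.d_inv, hw', map_zero, neg_zero]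
    let we : D.Closed := ⟨(1 / 2 : ℂ) • (w + inv w), by
      constructor
      · rw [map_smul, map_add, inv_inv, add_comm]
      · rw [map_smul, map_add, hw', hdi, add_zero, smul_zero]⟩
    have h1 : top W ((z : ExteriorAlgebra ℂ W) * we) = 0 := hz we
    have h2 : top W ((z : ExteriorAlgebra ℂ W) * ((1 / 2 : ℂ) • (w - inv w))) = 0 := by
      apply top_odd hN
      rw [map_mul, map_smul, map_sub, inv_inv, Closed.inv_eq z, ← mul_neg, ← smul_neg, neg_sub]
    change top W ((z : ExteriorAlgebra ℂ W) * w) = 0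
    have h3 : w = ((1 / 2 : ℂ) • (w + inv w)) + ((1 / 2 : ℂ) • (w - inv w)) := by
      module
    rw [h3, mul_add, map_add, h2, add_zero]
    exact h1
  obtain ⟨l, hl⟩ : ∃ l : ExteriorAlgebra ℂ W →ₗ[ℂ] ℂ,
      l ∘ₗ D.d = top W ∘ₗ LinearMap.mulLeft ℂ (z : ExteriorAlgebra ℂ W) := by
    have := (LinearMap.range_dualMap_eq_dualAnnihilator_ker D.d)
    have h2 : (top W ∘ₗ LinearMap.mulLeft ℂ (z : ExteriorAlgebra ℂ W)) ∈
        LinearMap.range D.d.dualMap := by
      rw [this, Submodule.mem_dualAnnihilator]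
      intro w hw
      exact hker hw
    obtain ⟨l, hl⟩ := h2
    exact ⟨l, hl⟩
  -- `l` is the pairing with a form `η`
  let P : ExteriorAlgebra ℂ W →ₗ[ℂ] Module.Dual ℂ (ExteriorAlgebra ℂ W) :=
    { toFun := fun η => top W ∘ₗ LinearMap.mulLeft ℂ η
      map_add' := fun a b => by ext w; simp [add_mul]
      map_smul' := fun c a => by ext w; simp }
  have hPinj : Function.Injective P := by
    rw [← LinearMap.ker_eq_bot, LinearMap.ker_eq_bot']
    intro η hη
    exact eq_zero_of_top_mul η fun y => LinearMap.congr_fun hη y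
  have hPsurj : Function.Surjective P :=
    (LinearMap.injective_iff_surjective_of_finrank_eq_finrank
      (Subspace.dual_finrank_eq (K := ℂ) (V := ExteriorAlgebra ℂ W)).symm).1 hPinj
  obtain ⟨η, hη⟩ := hPsurj l
  refine ⟨-inv η, ?_⟩
  symm
  rw [← sub_eq_zero]
  apply eq_zero_of_top_mul
  intro w
  have h1 : top W ((z : ExteriorAlgebra ℂ W) * w) = l (D.d w) := (LinearMap.congr_fun hl w).symm
  have h2 : l (D.d w) = top W (η * D.d w) := by rw [← hη]; rfl
  have h3 : top W (D.d (inv η * w)) = 0 := huni _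
  rw [D.mul, inv_inv, map_add] at h3
  rw [sub_mul, map_sub, h1, h2, map_neg, neg_mul, map_neg, sub_neg_eq_add, add_comm, h3]

end Dif

/-- For nilpotent algebras exact forms have integral zero. -/
theorem Dif.top_d [FiniteDimensional ℂ W] {D : Dif W} {N : ℕ} (hN : D.stage N = ⊤)
    (x : ExteriorAlgebra ℂ W) : top W (D.d x) = 0 := by
  refine graded_induct (P := fun x => top W (D.d x) = 0) (by simp) ?_ ?_ x
  · intro a b ha hb
    rw [map_add, map_add, ha, hb, add_zero]
  · intro k x hx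
    by_cases h : k + 1 = finrank ℂ W
    · rw [D.unimodular hN h hx, map_zero]
    · exact top_deg h (D.d_mem hx)

end Pool.Agent.KS6_76.NM
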