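import Pool.Agent.KS6_76.NM.Ext

/-!
# Differentials on the exterior algebra
-/

set_option autoImplicit false

namespace Pool.Agent.KS6_76.NM

open ExteriorAlgebra

variable {W : Type*} [AddCommGroup W] [Module ℂ W]

/-- A differential of degree one on the exterior algebra. -/
structure Dif (W : Type*) [AddCommGroup W] [Module ℂ W] where
  /-- the differential -/
  d : ExteriorAlgebra ℂ W →ₗ[ℂ] ExteriorAlgebra ℂ W
  mul : ∀ x y, d (x * y) = d x * y + inv x * d y
  two : ∀ v, d (ι ℂ v) ∈ ⋀[ℂ]^2 W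
  dd : ∀ x, d (d x) = 0

namespace Dif

variable (D : Dif W)

theorem d_one : D.d 1 = 0 := by
  have h := D.mul 1 1
  have h1 : inv (1 : ExteriorAlgebra ℂ W) = 1 := map_one _
  rw [mul_one, h1, one_mul, mul_one] at h
  exact left_eq_add.1 h

theorem d_algebraMap (r : ℂ) : D.d (algebraMap ℂ _ r) = 0 := by
  rw [Algebra.algebraMap_eq_smul_one, map_smul, D.d_one, smul_zero]

theorem d_ι_mul (v : W) (x : ExteriorAlgebra ℂ W) :
    D.d (ι ℂ v * x) = D.d (ι ℂ v) * x - ι ℂ v * D.d x := by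
  rw [D.mul, inv_ι]; noncomm_ring

theorem d_mem {k : ℕ} {x : ExteriorAlgebra ℂ W} (hx : x ∈ ⋀[ℂ]^k W) :
    D.d x ∈ ⋀[ℂ]^(k + 1) W := by
  induction k generalizing x with
  | zero =>
    rw [exteriorPower, pow_zero] at hx
    obtain ⟨r, rfl⟩ := Submodule.mem_one.1 hx
    rw [D.d_algebraMap]
    exact Submodule.zero_mem _
  | succ k ih =>
    refine deg_induct (P := fun x => D.d x ∈ ⋀[ℂ]^(k + 1 + 1) W) ?_ ?_ ?_ hx
    · rw [map_zero]; exact Submodule.zero_mem _
    · intro a b ha hb; rw [map_add]; exact Submodule.add_mem _ ha hb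
    · intro v y hy
      rw [D.d_ι_mul]
      refine Submodule.sub_mem _ ?_ ?_
      · have := mul_mem_deg (D.two v) hy
        rwa [show 2 + k = k + 1 + 1 by ring] at this
      · have := mul_mem_deg (ι_mem v) (ih hy)
        rwa [show 1 + (k + 1) = k + 1 + 1 by ring] at this

theorem d_inv (x : ExteriorAlgebra ℂ W) : D.d (inv x) = -inv (D.d x) := by
  induction x using induct with
  | h0 r => rw [AlgHom.commutes, D.d_algebraMap, map_zero, neg_zero]
  | hadd a b ha hb => rw [map_add, map_add, ha, hb, map_add, map_add, neg_add]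
  | hι v a ha =>
    have e1 : inv (ι ℂ v * a) = -(ι ℂ v * inv a) := by rw [map_mul, inv_ι, neg_mul]
    have e2 : inv (ι ℂ v * D.d a) = -(ι ℂ v * inv (D.d a)) := by rw [map_mul, inv_ι, neg_mul]
    have e3 : inv (D.d (ι ℂ v) * a) = D.d (ι ℂ v) * inv a := by rw [map_mul, inv_two (D.two v)]
    rw [e1, map_neg, D.d_ι_mul, D.d_ι_mul, map_sub, e2, e3, ha]
    noncomm_ring

theorem d_mul_two {w : ExteriorAlgebra ℂ W} (hw : w ∈ ⋀[ℂ]^2 W) (x : ExteriorAlgebra ℂ W) :
    D.d (w * x) = D.d w * x + w * D.d x := by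
  rw [D.mul, inv_two hw]

theorem d_closed_mul {w : ExteriorAlgebra ℂ W} (hw : w ∈ ⋀[ℂ]^2 W) (hd : D.d w = 0)
    (x : ExteriorAlgebra ℂ W) : D.d (w * x) = w * D.d x := by
  rw [D.d_mul_two hw, hd, zero_mul, zero_add]

theorem d_pow_mul {w : ExteriorAlgebra ℂ W} (hw : w ∈ ⋀[ℂ]^2 W) (hd : D.d w = 0) (k : ℕ)
    (x : ExteriorAlgebra ℂ W) : D.d (w ^ k * x) = w ^ k * D.d x := by
  induction k with
  | zero => rw [pow_zero, one_mul, one_mul]
  | succ k ih =>
    rw [pow_succ', mul_assoc, D.d_closed_mul hw hd, ih, mul_assoc]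

theorem d_pow {w : ExteriorAlgebra ℂ W} (hw : w ∈ ⋀[ℂ]^2 W) (hd : D.d w = 0) (k : ℕ) :
    D.d (w ^ k) = 0 := by
  have := D.d_pow_mul hw hd k 1
  rwa [mul_one, D.d_one, mul_zero] at this

/-- The Lie derivative. -/
noncomputable def lie (z : Module.Dual ℂ W) : ExteriorAlgebra ℂ W →ₗ[ℂ] ExteriorAlgebra ℂ W :=
  ic z ∘ₗ D.d + D.d ∘ₗ ic z

theorem lie_apply (z : Module.Dual ℂ W) (x : ExteriorAlgebra ℂ W) :
    D.lie z x = ic z (D.d x) + D.d (ic z x) := rfl

theorem lie_mul (z : Module.Dual ℂ W) (x y : ExteriorAlgebra ℂ W) :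
    D.lie z (x * y) = D.lie z x * y + x * D.lie z y := by
  have h1 : inv (ic z x) = -ic z (inv x) := by
    induction x using induct with
    | h0 r => rw [ic_algebraMap, AlgHom.commutes, ic_algebraMap, map_zero, neg_zero]
    | hadd a b ha hb => simp only [map_add, ha, hb, neg_add]
    | hι v a ha =>
      have e1 : inv (ι ℂ v * a) = -(ι ℂ v * inv a) := by rw [map_mul, inv_ι, neg_mul]
      have e2 : inv (ι ℂ v * ic z a) = -(ι ℂ v * inv (ic z a)) := by
        rw [map_mul, inv_ι, neg_mul]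
      rw [ic_ι_mul, map_sub, map_smul, e2, e1, map_neg, ic_ι_mul, ha]
      noncomm_ring
  rw [lie_apply, lie_apply, lie_apply, D.mul, map_add, ic_mul, ic_mul, ic_mul, map_add, D.mul,
    D.mul, D.d_inv, h1, inv_inv]
  have h2 : inv (D.d x) = -D.d (inv x) := by rw [D.d_inv, neg_neg]
  rw [h2]
  noncomm_ring

theorem lie_algebraMap (z : Module.Dual ℂ W) (r : ℂ) : D.lie z (algebraMap ℂ _ r) = 0 := by
  rw [lie_apply, D.d_algebraMap, ic_algebraMap, map_zero, map_zero, add_zero]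

theorem lie_ι (z : Module.Dual ℂ W) (v : W) : D.lie z (ι ℂ v) = ic z (D.d (ι ℂ v)) := by
  rw [lie_apply, ic_ι, D.d_algebraMap, add_zero]

theorem lie_mem (z : Module.Dual ℂ W) {k : ℕ} {x : ExteriorAlgebra ℂ W} (hx : x ∈ ⋀[ℂ]^k W) :
    D.lie z x ∈ ⋀[ℂ]^k W := by
  induction k generalizing x with
  | zero =>
    rw [exteriorPower, pow_zero] at hx
    obtain ⟨r, rfl⟩ := Submodule.mem_one.1 hx
    rw [D.lie_algebraMap]
    exact Submodule.zero_mem _
  | succ k ih =>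
    rw [lie_apply]
    exact Submodule.add_mem _ (ic_mem z (D.d_mem hx)) (D.d_mem (ic_mem z hx))

/-- The vector `z` is central: `i_z` anticommutes with `d`. -/
theorem lie_central {z : Module.Dual ℂ W} (hz : ∀ v, ic z (D.d (ι ℂ v)) = 0)
    (x : ExteriorAlgebra ℂ W) : D.lie z x = 0 := by
  induction x using induct with
  | h0 r => exact D.lie_algebraMap z r
  | hadd a b ha hb => rw [map_add, ha, hb, add_zero]
  | hι v a ha => rw [D.lie_mul, D.lie_ι, hz, ha, zero_mul, mul_zero, add_zero]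

theorem d_ic {z : Module.Dual ℂ W} (hz : ∀ v, ic z (D.d (ι ℂ v)) = 0)
    {x : ExteriorAlgebra ℂ W} (hx : D.d x = 0) : D.d (ic z x) = 0 := by
  have h := D.lie_central hz x
  rwa [lie_apply, hx, map_zero, zero_add] at h

/-- The closed 1-forms. -/
noncomputable def Z : Submodule ℂ W := LinearMap.ker (D.d ∘ₗ ι ℂ)

theorem mem_Z {v : W} : v ∈ D.Z ↔ D.d (ι ℂ v) = 0 := LinearMap.mem_ker

/-- The exact 2-forms. -/
noncomputable def B : Submodule ℂ (ExteriorAlgebra ℂ W) := LinearMap.range (D.d ∘ₗ ι ℂ)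

theorem mem_B {x : ExteriorAlgebra ℂ W} : x ∈ D.B ↔ ∃ v, D.d (ι ℂ v) = x := LinearMap.mem_range

theorem B_le : D.B ≤ ⋀[ℂ]^2 W := by
  rintro _ ⟨v, rfl⟩
  exact D.two v

/-- A homogeneous exact form is the differential of a homogeneous form. -/
theorem exact_homogeneous {k : ℕ} {x y : ExteriorAlgebra ℂ W} (hx : x ∈ ⋀[ℂ]^(k + 1) W)
    (hy : D.d y = x) : ∃ y' ∈ ⋀[ℂ]^k W, D.d y' = x := by
  classical
  refine ⟨(DirectSum.decompose (fun i : ℕ => ⋀[ℂ]^i W) y k : ExteriorAlgebra ℂ W),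
    Submodule.coe_mem _, ?_⟩
  have h1 : ∀ y : ExteriorAlgebra ℂ W,
      (DirectSum.decompose (fun i : ℕ => ⋀[ℂ]^i W) (D.d y) (k + 1) : ExteriorAlgebra ℂ W) =
        D.d (DirectSum.decompose (fun i : ℕ => ⋀[ℂ]^i W) y k : ExteriorAlgebra ℂ W) := by
    intro y
    refine DirectSum.Decomposition.inductionOn (fun i : ℕ => ⋀[ℂ]^i W) ?_ ?_ ?_ y
    · simp
    · intro i m
      rcases eq_or_ne i k with h | h
      · subst h
        rw [DirectSum.decompose_of_mem_same (fun i : ℕ => ⋀[ℂ]^i W) (D.d_mem m.2),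
          DirectSum.decompose_coe, DirectSum.of_eq_same]
      · rw [DirectSum.decompose_of_mem_ne (fun i : ℕ => ⋀[ℂ]^i W) (D.d_mem m.2) (by omega),
          DirectSum.decompose_coe, DirectSum.of_eq_of_ne _ _ _ (Ne.symm h)]
        simp
    · intro a b ha hb
      simp only [map_add, DirectSum.decompose_add, DirectSum.add_apply, Submodule.coe_add, ha, hb]
  rw [← h1, hy, DirectSum.decompose_of_mem_same (fun i : ℕ => ⋀[ℂ]^i W) hx]

theorem mem_B_of_exact {x y : ExteriorAlgebra ℂ W} (hx : x ∈ ⋀[ℂ]^2 W) (hy : D.d y = x) :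
    x ∈ D.B := by
  obtain ⟨y', hy', h⟩ := D.exact_homogeneous (k := 1) hx hy
  obtain ⟨v, rfl⟩ := mem_one.1 hy'
  exact D.mem_B.2 ⟨v, h⟩

end Dif

end Pool.Agent.KS6_76.NM
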