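import Mathlib

/-!
# Exterior algebras: contractions, degrees, 2-forms
-/

set_option autoImplicit false

namespace Pool.Agent.KS6_76.NM

open ExteriorAlgebra

variable {W : Type*} [AddCommGroup W] [Module ℂ W]

/-- The sign involution. -/
noncomputable abbrev inv : ExteriorAlgebra ℂ W →ₐ[ℂ] ExteriorAlgebra ℂ W :=
  CliffordAlgebra.involute (Q := (0 : QuadraticForm ℂ W))

/-- Contraction with a vector. -/
noncomputable abbrev ic (z : Module.Dual ℂ W) :
    ExteriorAlgebra ℂ W →ₗ[ℂ] ExteriorAlgebra ℂ W :=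
  CliffordAlgebra.contractLeft (Q := (0 : QuadraticForm ℂ W)) z

theorem inv_ι (v : W) : inv (ι ℂ v) = -ι ℂ v := CliffordAlgebra.involute_ι _

theorem inv_inv (x : ExteriorAlgebra ℂ W) : inv (inv x) = x := CliffordAlgebra.involute_involute _

theorem ι_mul_ι (v w : W) : ι ℂ v * ι ℂ w = -(ι ℂ w * ι ℂ v) :=
  eq_neg_of_add_eq_zero_left (ι_add_mul_swap v w)

theorem ic_ι (z : Module.Dual ℂ W) (v : W) :
    ic z (ι ℂ v) = algebraMap ℂ (ExteriorAlgebra ℂ W) (z v) :=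
  CliffordAlgebra.contractLeft_ι _ _ _

theorem ic_ι_mul (z : Module.Dual ℂ W) (v : W) (x : ExteriorAlgebra ℂ W) :
    ic z (ι ℂ v * x) = z v • x - ι ℂ v * ic z x :=
  CliffordAlgebra.contractLeft_ι_mul _ _ _

theorem ic_one (z : Module.Dual ℂ W) : ic z (1 : ExteriorAlgebra ℂ W) = 0 :=
  CliffordAlgebra.contractLeft_one _ _

theorem ic_algebraMap (z : Module.Dual ℂ W) (r : ℂ) :
    ic z (algebraMap ℂ (ExteriorAlgebra ℂ W) r) = 0 :=
  CliffordAlgebra.contractLeft_algebraMap _ _ _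

theorem ic_ic (z : Module.Dual ℂ W) (x : ExteriorAlgebra ℂ W) : ic z (ic z x) = 0 :=
  CliffordAlgebra.contractLeft_contractLeft _ _

theorem ic_comm (z y : Module.Dual ℂ W) (x : ExteriorAlgebra ℂ W) :
    ic z (ic y x) = -ic y (ic z x) :=
  CliffordAlgebra.contractLeft_comm _ _ _

/-- Left induction on the exterior algebra. -/
theorem induct {P : ExteriorAlgebra ℂ W → Prop} (h0 : ∀ r, P (algebraMap ℂ _ r))
    (hadd : ∀ x y, P x → P y → P (x + y)) (hι : ∀ v x, P x → P (ι ℂ v * x))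
    (x : ExteriorAlgebra ℂ W) : P x :=
  CliffordAlgebra.left_induction (0 : QuadraticForm ℂ W) h0 hadd (fun x v hx => hι v x hx) x

theorem ic_mul (z : Module.Dual ℂ W) (x y : ExteriorAlgebra ℂ W) :
    ic z (x * y) = ic z x * y + inv x * ic z y := by
  induction x using induct with
  | h0 r =>
    rw [ic_algebraMap, zero_mul, zero_add, AlgHom.commutes, Algebra.algebraMap_eq_smul_one,
      smul_mul_assoc, one_mul, smul_mul_assoc, one_mul, map_smul]
  | hadd a b ha hb => rw [add_mul, map_add, ha, hb, map_add, map_add]; noncomm_ring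
  | hι v a ha =>
    rw [mul_assoc, ic_ι_mul, ha, ic_ι_mul, map_mul, inv_ι, sub_mul, smul_mul_assoc]
    noncomm_ring

/-! ### Degrees -/

theorem ι_mem (v : W) : ι ℂ v ∈ ⋀[ℂ]^1 W := by
  rw [exteriorPower, pow_one]; exact LinearMap.mem_range_self _ _

theorem mem_one {x : ExteriorAlgebra ℂ W} : x ∈ ⋀[ℂ]^1 W ↔ ∃ v, ι ℂ v = x := by
  rw [exteriorPower, pow_one]; exact LinearMap.mem_range

theorem one_mem_zero : (1 : ExteriorAlgebra ℂ W) ∈ ⋀[ℂ]^0 W := by
  rw [exteriorPower, pow_zero]; exact Submodule.one_le.1 le_rfl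

theorem algebraMap_mem_zero (r : ℂ) : algebraMap ℂ (ExteriorAlgebra ℂ W) r ∈ ⋀[ℂ]^0 W := by
  rw [Algebra.algebraMap_eq_smul_one]
  exact Submodule.smul_mem _ _ one_mem_zero

theorem mul_mem_deg {m n : ℕ} {x y : ExteriorAlgebra ℂ W} (hx : x ∈ ⋀[ℂ]^m W)
    (hy : y ∈ ⋀[ℂ]^n W) : x * y ∈ ⋀[ℂ]^(m + n) W := by
  rw [exteriorPower, pow_add]; exact Submodule.mul_mem_mul hx hy

theorem pow_mem_deg {m : ℕ} {x : ExteriorAlgebra ℂ W} (hx : x ∈ ⋀[ℂ]^m W) (k : ℕ) :
    x ^ k ∈ ⋀[ℂ]^(m * k) W := by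
  induction k with
  | zero => rw [pow_zero, mul_zero]; exact one_mem_zero
  | succ k ih => rw [pow_succ, mul_add, mul_one]; exact mul_mem_deg ih hx

/-- Induction on forms of degree `k + 1`. -/
theorem deg_induct {k : ℕ} {P : ExteriorAlgebra ℂ W → Prop} (_h0 : P 0)
    (hadd : ∀ x y, P x → P y → P (x + y)) (hmul : ∀ v, ∀ x ∈ ⋀[ℂ]^k W, P (ι ℂ v * x))
    {x : ExteriorAlgebra ℂ W} (hx : x ∈ ⋀[ℂ]^(k + 1) W) : P x := by
  rw [exteriorPower, pow_succ'] at hx
  induction hx using Submodule.mul_induction_on' with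
  | mem_mul_mem a ha b hb =>
    obtain ⟨v, rfl⟩ := LinearMap.mem_range.1 ha
    exact hmul v b hb
  | add a _ b _ ha hb => exact hadd a b ha hb

theorem inv_deg {n : ℕ} {x : ExteriorAlgebra ℂ W} (hx : x ∈ ⋀[ℂ]^n W) :
    inv x = (-1 : ℂ) ^ n • x := by
  induction n generalizing x with
  | zero =>
    rw [exteriorPower, pow_zero] at hx
    obtain ⟨r, rfl⟩ := Submodule.mem_one.1 hx
    rw [AlgHom.commutes, pow_zero, one_smul]
  | succ n ih =>
    refine deg_induct (P := fun x => inv x = (-1 : ℂ) ^ (n + 1) • x) ?_ ?_ ?_ hx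
    · simp
    · intro a b ha hb; rw [map_add, ha, hb, smul_add]
    · intro v y hy
      rw [map_mul, ih hy, inv_ι, pow_succ]
      simp

theorem ic_mem {k : ℕ} (z : Module.Dual ℂ W) {x : ExteriorAlgebra ℂ W}
    (hx : x ∈ ⋀[ℂ]^(k + 1) W) : ic z x ∈ ⋀[ℂ]^k W := by
  induction k generalizing x with
  | zero =>
    rw [zero_add] at hx
    obtain ⟨v, rfl⟩ := mem_one.1 hx
    rw [ic_ι]; exact algebraMap_mem_zero _
  | succ k ih =>
    refine deg_induct (P := fun x => ic z x ∈ ⋀[ℂ]^(k + 1) W) ?_ ?_ ?_ hx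
    · rw [map_zero]; exact Submodule.zero_mem _
    · intro a b ha hb; rw [map_add]; exact Submodule.add_mem _ ha hb
    · intro v y hy
      rw [ic_ι_mul]
      refine Submodule.sub_mem _ (Submodule.smul_mem _ _ hy) ?_
      have := mul_mem_deg (ι_mem v) (ih hy)
      rwa [add_comm] at this

theorem inv_two {x : ExteriorAlgebra ℂ W} (hx : x ∈ ⋀[ℂ]^2 W) : inv x = x := by
  rw [inv_deg hx]; norm_num

theorem ιι_mem (v w : W) : ι ℂ v * ι ℂ w ∈ ⋀[ℂ]^2 W := mul_mem_deg (ι_mem v) (ι_mem w)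

theorem two_induct {P : ExteriorAlgebra ℂ W → Prop} (h0 : P 0)
    (hadd : ∀ x y, P x → P y → P (x + y)) (hmul : ∀ v w, P (ι ℂ v * ι ℂ w))
    {x : ExteriorAlgebra ℂ W} (hx : x ∈ ⋀[ℂ]^2 W) : P x := by
  refine deg_induct (k := 1) h0 hadd ?_ hx
  intro v x hx
  obtain ⟨w, rfl⟩ := mem_one.1 hx
  exact hmul v w

theorem ι_mul_eq (v : W) (x : ExteriorAlgebra ℂ W) : ι ℂ v * x = inv x * ι ℂ v := by
  induction x using induct with
  | h0 r => rw [AlgHom.commutes]; exact (Algebra.commutes r (ι ℂ v)).symm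
  | hadd a b ha hb => rw [mul_add, ha, hb, map_add, add_mul]
  | hι w a ha =>
    rw [map_mul, inv_ι, ← mul_assoc, ι_mul_ι, neg_mul, mul_assoc, ha]
    noncomm_ring

/-- 2-forms are central. -/
theorem two_comm {x : ExteriorAlgebra ℂ W} (hx : x ∈ ⋀[ℂ]^2 W) (y : ExteriorAlgebra ℂ W) :
    x * y = y * x := by
  induction y using induct with
  | h0 r => exact (Algebra.commutes r x).symm
  | hadd a b ha hb => rw [mul_add, ha, hb, add_mul]
  | hι v a ha =>
    have h1 := ι_mul_eq v x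
    rw [inv_two hx] at h1
    rw [← mul_assoc, ← h1, mul_assoc, ha, mul_assoc]

theorem two_pow_comm {x : ExteriorAlgebra ℂ W} (hx : x ∈ ⋀[ℂ]^2 W) (k : ℕ)
    (y : ExteriorAlgebra ℂ W) : x ^ k * y = y * x ^ k :=
  ((Commute.pow_left (two_comm hx y : Commute x y) k) : Commute (x ^ k) y)

theorem inv_pow {x : ExteriorAlgebra ℂ W} (hx : x ∈ ⋀[ℂ]^2 W) (k : ℕ) :
    inv (x ^ k) = x ^ k := by rw [map_pow, inv_two hx]

theorem ic_pow_succ (z : Module.Dual ℂ W) {w : ExteriorAlgebra ℂ W} (hw : w ∈ ⋀[ℂ]^2 W) (k : ℕ) :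
    ic z (w ^ (k + 1)) = ((k : ℂ) + 1) • (w ^ k * ic z w) := by
  induction k with
  | zero => simp
  | succ k ih =>
    rw [pow_succ, ic_mul, ih, inv_pow hw, smul_mul_assoc, mul_assoc, ← two_comm hw (ic z w),
      ← mul_assoc, ← pow_succ, Nat.cast_add, Nat.cast_one, add_smul (((k : ℂ) + 1)), one_smul]

/-! ### The top degree -/

section top

variable [FiniteDimensional ℂ W]

instance instFiniteExt : Module.Finite ℂ (ExteriorAlgebra ℂ W) :=
  Module.Finite.of_basis (Module.finBasis ℂ W).ExteriorAlgebra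

theorem eq_zero_of_deg {n : ℕ} (hn : Module.finrank ℂ W < n) {x : ExteriorAlgebra ℂ W}
    (hx : x ∈ ⋀[ℂ]^n W) : x = 0 := by
  have h1 : Module.finrank ℂ (⋀[ℂ]^n W) = 0 := by
    rw [exteriorPower.finrank_eq, Nat.choose_eq_zero_of_lt hn]
  have h2 : (⋀[ℂ]^n W) = ⊥ := Submodule.finrank_eq_zero.1 h1
  rw [h2] at hx
  exact (Submodule.mem_bot ℂ).1 hx

theorem exists_smul_of_top {x y : ExteriorAlgebra ℂ W} (hx : x ∈ ⋀[ℂ]^(Module.finrank ℂ W) W)
    (hy : y ∈ ⋀[ℂ]^(Module.finrank ℂ W) W) (hy0 : y ≠ 0) : ∃ c : ℂ, x = c • y := by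
  have h1 : Module.finrank ℂ (⋀[ℂ]^(Module.finrank ℂ W) W) = 1 := by
    rw [exteriorPower.finrank_eq, Nat.choose_self]
  obtain ⟨c, hc⟩ := (finrank_eq_one_iff_of_nonzero' (⟨y, hy⟩ : ⋀[ℂ]^(Module.finrank ℂ W) W)
    (fun h => hy0 (congrArg Subtype.val h))).1 h1 ⟨x, hx⟩
  exact ⟨c, (congrArg Subtype.val hc).symm⟩

theorem eq_zero_of_ic_top {z : Module.Dual ℂ W} (hz : z ≠ 0) {x : ExteriorAlgebra ℂ W}
    (hx : x ∈ ⋀[ℂ]^(Module.finrank ℂ W) W) (h : ic z x = 0) : x = 0 := by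
  obtain ⟨v, hv⟩ : ∃ v, z v ≠ 0 := by
    by_contra hcon
    push Not at hcon
    exact hz (LinearMap.ext hcon)
  have h1 : ι ℂ v * x = 0 := by
    refine eq_zero_of_deg (n := 1 + Module.finrank ℂ W) (by omega) (mul_mem_deg (ι_mem v) hx)
  have h2 := ic_ι_mul z v x
  rw [h1, map_zero, h, mul_zero, sub_zero] at h2
  exact (smul_eq_zero.1 h2.symm).resolve_left hv

end top

/-! ### Functionals -/

section dual

variable [FiniteDimensional ℂ W]

/-- The Euler operator. -/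
noncomputable def euler (W : Type*) [AddCommGroup W] [Module ℂ W] [FiniteDimensional ℂ W] :
    ExteriorAlgebra ℂ W →ₗ[ℂ] ExteriorAlgebra ℂ W :=
  ∑ i, LinearMap.mulLeft ℂ (ι ℂ (Module.finBasis ℂ W i)) ∘ₗ ic ((Module.finBasis ℂ W).coord i)

theorem euler_apply (x : ExteriorAlgebra ℂ W) : euler W x =
    ∑ i, ι ℂ (Module.finBasis ℂ W i) * ic ((Module.finBasis ℂ W).coord i) x := by
  simp [euler]

theorem euler_ι_mul (v : W) (x : ExteriorAlgebra ℂ W) :
    euler W (ι ℂ v * x) = ι ℂ v * x + ι ℂ v * euler W x := by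
  rw [euler_apply, euler_apply, Finset.mul_sum]
  have h1 : ι ℂ v * x = ∑ i, (ι ℂ (Module.finBasis ℂ W i) *
      ((Module.finBasis ℂ W).coord i v • x)) := by
    conv_lhs => rw [← (Module.finBasis ℂ W).sum_repr v]
    rw [map_sum, Finset.sum_mul]
    refine Finset.sum_congr rfl fun i _ => ?_
    rw [map_smul, smul_mul_assoc, mul_smul_comm]
    rfl
  conv_rhs => rw [h1]
  rw [← Finset.sum_add_distrib]
  refine Finset.sum_congr rfl fun i _ => ?_
  rw [ic_ι_mul, mul_sub, ← mul_assoc, ι_mul_ι, neg_mul, sub_neg_eq_add, mul_assoc]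

theorem euler_deg {k : ℕ} {x : ExteriorAlgebra ℂ W} (hx : x ∈ ⋀[ℂ]^k W) :
    euler W x = (k : ℂ) • x := by
  induction k generalizing x with
  | zero =>
    rw [exteriorPower, pow_zero] at hx
    obtain ⟨r, rfl⟩ := Submodule.mem_one.1 hx
    rw [euler_apply, Nat.cast_zero, zero_smul]
    refine Finset.sum_eq_zero fun i _ => ?_
    rw [ic_algebraMap, mul_zero]
  | succ k ih =>
    refine deg_induct (P := fun x => euler W x = ((k + 1 : ℕ) : ℂ) • x) ?_ ?_ ?_ hx
    · simp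
    · intro a b ha hb; rw [map_add, ha, hb, smul_add]
    · intro v y hy
      rw [euler_ι_mul, ih hy, mul_smul_comm, Nat.cast_add, Nat.cast_one, add_smul, one_smul,
        add_comm]

/-- A form of positive degree whose contractions vanish is zero. -/
theorem eq_zero_of_ic {k : ℕ} {x : ExteriorAlgebra ℂ W} (hx : x ∈ ⋀[ℂ]^(k + 1) W)
    (h : ∀ z, ic z x = 0) : x = 0 := by
  have h1 := euler_deg hx
  rw [euler_apply] at h1
  rw [Finset.sum_eq_zero fun i _ => by rw [h, mul_zero]] at h1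
  have h2 : (((k + 1 : ℕ) : ℂ)) ≠ 0 := by exact_mod_cast Nat.succ_ne_zero k
  exact (smul_eq_zero.1 h1.symm).resolve_left h2

/-- The products of two elements of `S` span the 2-forms on `S`. -/
def w2 (S : Submodule ℂ W) : Submodule ℂ (ExteriorAlgebra ℂ W) :=
  Submodule.span ℂ {x | ∃ a ∈ S, ∃ b ∈ S, x = ι ℂ a * ι ℂ b}

omit [FiniteDimensional ℂ W] in
theorem w2_mul_mem {S : Submodule ℂ W} {a b : W} (ha : a ∈ S) (hb : b ∈ S) :
    ι ℂ a * ι ℂ b ∈ w2 S := Submodule.subset_span ⟨a, ha, b, hb, rfl⟩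

omit [FiniteDimensional ℂ W] in
theorem w2_mono {S T : Submodule ℂ W} (h : S ≤ T) : w2 S ≤ w2 T := by
  refine Submodule.span_mono ?_
  rintro x ⟨a, ha, b, hb, rfl⟩
  exact ⟨a, h ha, b, h hb, rfl⟩

omit [FiniteDimensional ℂ W] in
theorem w2_le {S : Submodule ℂ W} : w2 S ≤ ⋀[ℂ]^2 W := by
  refine Submodule.span_le.2 ?_
  rintro x ⟨a, -, b, -, rfl⟩
  exact ιι_mem a b

omit [FiniteDimensional ℂ W] in
theorem ic_w2 {S : Submodule ℂ W} {z : Module.Dual ℂ W} (hz : ∀ v ∈ S, z v = 0)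
    {x : ExteriorAlgebra ℂ W} (hx : x ∈ w2 S) : ic z x = 0 := by
  induction hx using Submodule.span_induction with
  | mem x hx =>
    obtain ⟨a, ha, b, hb, rfl⟩ := hx
    rw [ic_ι_mul, ic_ι, hz a ha, hz b hb, zero_smul, map_zero, mul_zero, sub_zero]
  | zero => exact map_zero _
  | add a b _ _ ha hb => rw [map_add, ha, hb, add_zero]
  | smul c a _ ha => rw [map_smul, ha, smul_zero]

omit [FiniteDimensional ℂ W] in
theorem ic_map (f : W →ₗ[ℂ] W) (z : Module.Dual ℂ W) (x : ExteriorAlgebra ℂ W) :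
    ic z (ExteriorAlgebra.map f x) = ExteriorAlgebra.map f (ic (z ∘ₗ f) x) := by
  induction x using induct with
  | h0 r => rw [AlgHom.commutes, ic_algebraMap, ic_algebraMap, map_zero]
  | hadd a b ha hb => simp only [map_add, ha, hb]
  | hι v a ha =>
    rw [map_mul, ExteriorAlgebra.map_apply_ι, ic_ι_mul, ic_ι_mul, ha, map_sub, map_smul, map_mul,
      ExteriorAlgebra.map_apply_ι]
    rfl

/-- A linear form that takes a nonzero value outside `S` and vanishes on `S`. -/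
theorem exists_dual {S : Submodule ℂ W} {v : W} (hv : v ∉ S) :
    ∃ z : Module.Dual ℂ W, (∀ s ∈ S, z s = 0) ∧ z v = 1 := by
  obtain ⟨g, hg1, hg2⟩ := Submodule.exists_dual_map_eq_bot_of_notMem hv inferInstance
  refine ⟨(g v)⁻¹ • g, fun s hs => ?_, ?_⟩
  · have : g s ∈ S.map g := ⟨s, hs, rfl⟩
    rw [hg2, Submodule.mem_bot] at this
    simp [this]
  · simp [hg1]

theorem mem_of_dual {S : Submodule ℂ W} {v : W}
    (h : ∀ z : Module.Dual ℂ W, (∀ s ∈ S, z s = 0) → z v = 0) : v ∈ S := by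
  by_contra hv
  obtain ⟨z, hz, hz1⟩ := exists_dual hv
  rw [h z hz] at hz1
  exact zero_ne_one hz1

/-- A 2-form killed by the annihilator of `S` is a 2-form on `S`. -/
theorem mem_w2 {S : Submodule ℂ W} {x : ExteriorAlgebra ℂ W} (hx : x ∈ ⋀[ℂ]^2 W)
    (h : ∀ z : Module.Dual ℂ W, (∀ v ∈ S, z v = 0) → ic z x = 0) : x ∈ w2 S := by
  obtain ⟨p, hp⟩ := LinearMap.exists_leftInverse_of_injective S.subtype
    (LinearMap.ker_eq_bot.2 Subtype.val_injective)
  let π : W →ₗ[ℂ] W := S.subtype ∘ₗ p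
  have hπ : ∀ v ∈ S, π v = v := by
    intro v hv
    change ((p v : S) : W) = v
    have : p v = ⟨v, hv⟩ := LinearMap.congr_fun hp ⟨v, hv⟩
    rw [this]
  have hπS : ∀ v, π v ∈ S := fun v => Submodule.coe_mem _
  have h1 : ExteriorAlgebra.map π x ∈ w2 S := by
    refine two_induct (P := fun x => ExteriorAlgebra.map π x ∈ w2 S) ?_ ?_ ?_ hx
    · rw [map_zero]; exact Submodule.zero_mem _
    · intro a b ha hb; rw [map_add]; exact Submodule.add_mem _ ha hb
    · intro v w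
      rw [map_mul, ExteriorAlgebra.map_apply_ι, ExteriorAlgebra.map_apply_ι]
      exact w2_mul_mem (hπS v) (hπS w)
  have h2 : x - ExteriorAlgebra.map π x = 0 := by
    refine eq_zero_of_ic (k := 1) (Submodule.sub_mem _ hx (w2_le h1)) fun g => ?_
    rw [map_sub, ic_map]
    have h3 : ic g x = ic (g ∘ₗ π) x := by
      have h4 := h (g - g ∘ₗ π) (fun v hv => by
        simp [hπ v hv])
      have h5 : ic (g - g ∘ₗ π) x = ic g x - ic (g ∘ₗ π) x := by
        simp only [ic, map_sub, LinearMap.sub_apply]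
      rw [h5] at h4
      exact sub_eq_zero.1 h4
    rw [h3]
    obtain ⟨y, hy⟩ := mem_one.1 (ic_mem (k := 1) (g ∘ₗ π) hx)
    have hyS : y ∈ S := by
      refine mem_of_dual fun z hz => ?_
      have h6 := ic_comm z (g ∘ₗ π) x
      rw [h z hz, map_zero, neg_zero, ← hy, ic_ι] at h6
      exact (ExteriorAlgebra.algebraMap_eq_zero_iff W _).1 h6
    rw [← hy, ExteriorAlgebra.map_apply_ι, hπ y hyS, sub_self]
  rw [sub_eq_zero.1 h2]
  exact h1

theorem finrank_w2 (S : Submodule ℂ W) :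
    Module.finrank ℂ (w2 S) = (Module.finrank ℂ S).choose 2 := by
  have h1 : w2 S = (⋀[ℂ]^2 S).map (ExteriorAlgebra.map S.subtype).toLinearMap := by
    apply le_antisymm
    · refine Submodule.span_le.2 ?_
      rintro x ⟨a, ha, b, hb, rfl⟩
      refine ⟨ι ℂ (⟨a, ha⟩ : S) * ι ℂ (⟨b, hb⟩ : S), ιι_mem _ _, ?_⟩
      simp
    · rintro _ ⟨x, hx, rfl⟩
      refine two_induct (P := fun x => (ExteriorAlgebra.map S.subtype).toLinearMap x ∈ w2 S)
        ?_ ?_ ?_ hx
      · rw [map_zero]; exact Submodule.zero_mem _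
      · intro a b ha hb; rw [map_add]; exact Submodule.add_mem _ ha hb
      · intro v w
        change ExteriorAlgebra.map S.subtype (ι ℂ v * ι ℂ w) ∈ w2 S
        rw [map_mul, ExteriorAlgebra.map_apply_ι, ExteriorAlgebra.map_apply_ι]
        exact w2_mul_mem v.2 w.2
  have hinj : Function.Injective (ExteriorAlgebra.map S.subtype).toLinearMap :=
    ExteriorAlgebra.map_injective_field (by simp)
  rw [h1, LinearEquiv.finrank_eq (Submodule.equivMapOfInjective _ hinj _).symm,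
    exteriorPower.finrank_eq]

/-- If `a ∧ b` is a 2-form on `S ∋ a ≠ 0`, then `b ∈ S`. -/
theorem mem_of_mul_mem_w2 {S : Submodule ℂ W} {a b : W} (ha : a ∈ S) (ha0 : a ≠ 0)
    (h : ι ℂ a * ι ℂ b ∈ w2 S) : b ∈ S := by
  refine mem_of_dual fun z hz => ?_
  have h1 := ic_w2 hz h
  rw [ic_ι_mul, ic_ι, hz a ha, zero_smul, zero_sub, neg_eq_zero,
    ← Algebra.commutes, ← Algebra.smul_def] at h1
  rcases smul_eq_zero.1 h1 with h2 | h2
  · exact h2
  · exact absurd ((ExteriorAlgebra.ι_eq_zero_iff a).1 h2) ha0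

end dual

end Pool.Agent.KS6_76.NM
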