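import Pool.Agent.KS6_76.NM.Two2

/-!
# The free 2-step nilpotent algebra on three generators
-/

set_option autoImplicit false

namespace Pool.Agent.KS6_76.NM

open ExteriorAlgebra Module

variable {W : Type*} [AddCommGroup W] [Module ℂ W]

theorem ic_ιMulti_zero {k : ℕ} {v : Fin k → W} {z : Module.Dual ℂ W} (h : ∀ i, z (v i) = 0) :
    ic z (ιMulti ℂ k v) = 0 := by
  induction k with
  | zero => rw [ιMulti_zero_apply]; exact ic_one z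
  | succ k ih =>
    rw [ιMulti_succ_apply, ic_ι_mul, h, zero_smul, zero_sub, neg_eq_zero]
    have := ih (v := Matrix.vecTail v) fun i => h i.succ
    rw [this, mul_zero]

/-- The product of linearly independent 1-forms is nonzero. -/
theorem ιMulti_ne_zero [FiniteDimensional ℂ W] {k : ℕ} {v : Fin k → W}
    (h : LinearIndependent ℂ v) : ιMulti ℂ k v ≠ 0 := by
  induction k with
  | zero => rw [ιMulti_zero_apply]; exact one_ne_zero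
  | succ k ih =>
    intro h0
    have h1 : v 0 ∉ Submodule.span ℂ (Set.range (Matrix.vecTail v)) := by
      have := h.notMem_span_image (s := Set.range Fin.succ) (x := 0) (by
        rintro ⟨i, hi⟩
        exact Fin.succ_ne_zero i hi)
      rwa [← Set.range_comp] at this
    obtain ⟨z, hz, hz1⟩ := exists_dual h1
    have h2 : ic z (ιMulti ℂ (k + 1) v) = 0 := by rw [h0, map_zero]
    have h3 : ic z (ιMulti ℂ k (Matrix.vecTail v)) = 0 :=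
      ic_ιMulti_zero fun i => hz _ (Submodule.subset_span ⟨i, rfl⟩)
    rw [ιMulti_succ_apply, ic_ι_mul, hz1, one_smul, h3, mul_zero, sub_zero] at h2
    exact ih (h.comp _ (Fin.succ_injective k)) h2

theorem cube {R : Type*} [Ring R] {a b c : R} (hab : b * a = a * b) (hac : c * a = a * c)
    (hbc : c * b = b * c) (ha : a * a = 0) (hb : b * b = 0) (hc : c * c = 0) :
    (a + b + c) ^ 3 = 6 * (a * b * c) := by
  have h2 : (a + b + c) * (a + b + c) = 2 * (a * b + a * c + b * c) := by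
    simp only [mul_add, add_mul, ha, hb, hc, hab, hac, hbc]
    noncomm_ring
  have h3 : (a * b + a * c + b * c) * (a + b + c) = 3 * (a * b * c) := by
    have e1 : a * b * a = 0 := by rw [mul_assoc, hab, ← mul_assoc, ha, zero_mul]
    have e2 : a * b * b = 0 := by rw [mul_assoc, hb, mul_zero]
    have e3 : a * c * a = 0 := by rw [mul_assoc, hac, ← mul_assoc, ha, zero_mul]
    have e4 : a * c * b = a * b * c := by rw [mul_assoc, hbc, ← mul_assoc]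
    have e5 : a * c * c = 0 := by rw [mul_assoc, hc, mul_zero]
    have e6 : b * c * a = a * b * c := by rw [mul_assoc, hac, ← mul_assoc, hab]
    have e7 : b * c * b = 0 := by rw [mul_assoc, hbc, ← mul_assoc, hb, zero_mul]
    have e8 : b * c * c = 0 := by rw [mul_assoc, hc, mul_zero]
    simp only [mul_add, add_mul, e1, e2, e3, e4, e5, e6, e7, e8]
    noncomm_ring
  rw [pow_succ, pow_two, h2, mul_assoc, h3]
  noncomm_ring

/-- A 2-form `a ∧ b` has square zero. -/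
theorem ιι_sq (a b : W) : (ι ℂ a * ι ℂ b) * (ι ℂ a * ι ℂ b) = 0 := by
  have h1 : ι ℂ b * ι ℂ a = -(ι ℂ a * ι ℂ b) := ι_mul_ι _ _
  calc (ι ℂ a * ι ℂ b) * (ι ℂ a * ι ℂ b) = ι ℂ a * (ι ℂ b * ι ℂ a) * ι ℂ b := by noncomm_ring
    _ = -((ι ℂ a * ι ℂ a) * (ι ℂ b * ι ℂ b)) := by rw [h1]; noncomm_ring
    _ = 0 := by rw [ι_sq_zero, zero_mul, neg_zero]

/-- A product of 1-forms with two equal factors, with one factor between. -/
theorem aba (a b : W) (x : ExteriorAlgebra ℂ W) : ι ℂ a * (ι ℂ b * (ι ℂ a * x)) = 0 := by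
  have h1 : ι ℂ b * ι ℂ a = -(ι ℂ a * ι ℂ b) := ι_mul_ι _ _
  calc ι ℂ a * (ι ℂ b * (ι ℂ a * x)) = ι ℂ a * (ι ℂ b * ι ℂ a) * x := by noncomm_ring
    _ = -((ι ℂ a * ι ℂ a) * ι ℂ b * x) := by rw [h1]; noncomm_ring
    _ = 0 := by rw [ι_sq_zero]; noncomm_ring

theorem free_case [FiniteDimensional ℂ W] (D : Dif W)
    (hZ : finrank ℂ D.Z = 3) (hB : D.B = w2 D.Z) (huni : ∀ x ∈ ⋀[ℂ]^5 W, D.d x = 0) :
    ∃ w ∈ ⋀[ℂ]^2 W, D.d w = 0 ∧ w ^ 3 ≠ 0 ∧ ¬ HL D 1 w := by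
  let bZ := finBasisOfFinrankEq ℂ D.Z hZ
  let e : Fin 3 → W := fun i => bZ i
  have heZ : ∀ i, e i ∈ D.Z := fun i => (bZ i).2
  have hde : ∀ i, D.d (ι ℂ (e i)) = 0 := fun i => D.mem_Z.1 (heZ i)
  have heli : LinearIndependent ℂ e :=
    bZ.linearIndependent.map' D.Z.subtype (Submodule.ker_subtype _)
  have hc : ∀ i j, ∃ c, D.d (ι ℂ c) = ι ℂ (e i) * ι ℂ (e j) := fun i j =>
    D.mem_B.1 (hB.ge (w2_mul_mem (heZ i) (heZ j)))
  obtain ⟨c0, hc0⟩ := hc 1 2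
  obtain ⟨c1, hc1⟩ := hc 2 0
  obtain ⟨c2, hc2⟩ := hc 0 1
  have hE : ι ℂ (e 0) * (ι ℂ (e 1) * ι ℂ (e 2)) ≠ 0 := by
    have h1 := ιMulti_ne_zero heli
    intro h2
    apply h1
    rw [ιMulti_succ_apply, ιMulti_succ_apply, ιMulti_succ_apply, ιMulti_zero_apply, mul_one]
    exact h2
  -- linear independence
  have hcoef : ∀ a b c : ℂ, a • (ι ℂ (e 1) * ι ℂ (e 2)) + b • (ι ℂ (e 2) * ι ℂ (e 0)) +
      c • (ι ℂ (e 0) * ι ℂ (e 1)) = 0 → a = 0 ∧ b = 0 ∧ c = 0 := by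
    intro a b c h
    have s01 : ι ℂ (e 1) * ι ℂ (e 0) = -(ι ℂ (e 0) * ι ℂ (e 1)) := ι_mul_ι _ _
    have s02 : ι ℂ (e 2) * ι ℂ (e 0) = -(ι ℂ (e 0) * ι ℂ (e 2)) := ι_mul_ι _ _
    have s12 : ι ℂ (e 2) * ι ℂ (e 1) = -(ι ℂ (e 1) * ι ℂ (e 2)) := ι_mul_ι _ _
    refine ⟨?_, ?_, ?_⟩
    · have h1 : ι ℂ (e 0) * (a • (ι ℂ (e 1) * ι ℂ (e 2)) + b • (ι ℂ (e 2) * ι ℂ (e 0)) +
        c • (ι ℂ (e 0) * ι ℂ (e 1))) = a • (ι ℂ (e 0) * (ι ℂ (e 1) * ι ℂ (e 2))) := by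
        have e1 : ι ℂ (e 0) * (ι ℂ (e 2) * ι ℂ (e 0)) = 0 := by
          have := aba (e 0) (e 2) 1
          rwa [mul_one] at this
        have e2 : ι ℂ (e 0) * (ι ℂ (e 0) * ι ℂ (e 1)) = 0 := by
          rw [← mul_assoc, ι_sq_zero, zero_mul]
        rw [mul_add, mul_add, mul_smul_comm, mul_smul_comm, mul_smul_comm, e1, e2, smul_zero,
          smul_zero, add_zero, add_zero]
      rw [h, mul_zero] at h1
      exact (smul_eq_zero.1 h1.symm).resolve_right hE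
    · have h1 : ι ℂ (e 1) * (a • (ι ℂ (e 1) * ι ℂ (e 2)) + b • (ι ℂ (e 2) * ι ℂ (e 0)) +
        c • (ι ℂ (e 0) * ι ℂ (e 1))) = b • (ι ℂ (e 0) * (ι ℂ (e 1) * ι ℂ (e 2))) := by
        have e1 : ι ℂ (e 1) * (ι ℂ (e 0) * ι ℂ (e 1)) = 0 := by
          have := aba (e 1) (e 0) 1
          rwa [mul_one] at this
        have e2 : ι ℂ (e 1) * (ι ℂ (e 1) * ι ℂ (e 2)) = 0 := by
          rw [← mul_assoc, ι_sq_zero, zero_mul]
        have e3 : ι ℂ (e 1) * (ι ℂ (e 2) * ι ℂ (e 0)) = ι ℂ (e 0) * (ι ℂ (e 1) * ι ℂ (e 2)) := by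
          rw [s02, mul_neg, ← mul_assoc, s01]; noncomm_ring
        rw [mul_add, mul_add, mul_smul_comm, mul_smul_comm, mul_smul_comm, e1, e2, e3, smul_zero,
          smul_zero, add_zero, zero_add]
      rw [h, mul_zero] at h1
      exact (smul_eq_zero.1 h1.symm).resolve_right hE
    · have h1 : ι ℂ (e 2) * (a • (ι ℂ (e 1) * ι ℂ (e 2)) + b • (ι ℂ (e 2) * ι ℂ (e 0)) +
        c • (ι ℂ (e 0) * ι ℂ (e 1))) = c • (ι ℂ (e 0) * (ι ℂ (e 1) * ι ℂ (e 2))) := by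
        have e1 : ι ℂ (e 2) * (ι ℂ (e 1) * ι ℂ (e 2)) = 0 := by
          have := aba (e 2) (e 1) 1
          rwa [mul_one] at this
        have e2 : ι ℂ (e 2) * (ι ℂ (e 2) * ι ℂ (e 0)) = 0 := by
          rw [← mul_assoc, ι_sq_zero, zero_mul]
        have e3 : ι ℂ (e 2) * (ι ℂ (e 0) * ι ℂ (e 1)) = ι ℂ (e 0) * (ι ℂ (e 1) * ι ℂ (e 2)) := by
          rw [← mul_assoc, s02, neg_mul, mul_assoc, s12]; noncomm_ring
        rw [mul_add, mul_add, mul_smul_comm, mul_smul_comm, mul_smul_comm, e1, e2, e3, smul_zero,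
          smul_zero, zero_add, zero_add]
      rw [h, mul_zero] at h1
      exact (smul_eq_zero.1 h1.symm).resolve_right hE
  have hind : ∀ a b c : ℂ, a • c0 + b • c1 + c • c2 ∈ D.Z → a = 0 ∧ b = 0 ∧ c = 0 := by
    intro a b c h
    rw [D.mem_Z] at h
    simp only [map_add, map_smul, hc0, hc1, hc2] at h
    exact hcoef a b c h
  -- the functional
  obtain ⟨z, hz, hz2⟩ : ∃ z : Dual ℂ W, (∀ s ∈ D.Z ⊔ Submodule.span ℂ {c0, c1}, z s = 0) ∧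
      z c2 = 1 := by
    refine exists_dual ?_
    intro hmem
    obtain ⟨u, hu, v, hv, huv⟩ := Submodule.mem_sup.1 hmem
    obtain ⟨a, b, rfl⟩ := Submodule.mem_span_pair.1 hv
    have h1 : (-a) • c0 + (-b) • c1 + (1 : ℂ) • c2 ∈ D.Z := by
      have : (-a) • c0 + (-b) • c1 + (1 : ℂ) • c2 = u := by
        rw [one_smul, ← huv, neg_smul, neg_smul]; abel
      rw [this]; exact hu
    exact one_ne_zero (hind _ _ _ h1).2.2
  have hzZ : ∀ s ∈ D.Z, z s = 0 := fun s hs => hz s (Submodule.mem_sup_left hs)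
  have hz0 : z c0 = 0 := hz _ (Submodule.mem_sup_right (Submodule.subset_span (by simp)))
  have hz1 : z c1 = 0 := hz _ (Submodule.mem_sup_right (Submodule.subset_span (by simp)))
  -- the forms
  set w : ExteriorAlgebra ℂ W := ι ℂ (e 0) * ι ℂ c1 + ι ℂ (e 1) * ι ℂ c2 + ι ℂ (e 2) * ι ℂ c0
    with hw
  set u : ExteriorAlgebra ℂ W := ι ℂ (e 0) * ι ℂ c2 + ι ℂ (e 1) * ι ℂ c0 + ι ℂ (e 2) * ι ℂ c1
    with hu
  have hw2 : w ∈ ⋀[ℂ]^2 W := Submodule.add_mem _ (Submodule.add_mem _ (ιι_mem _ _) (ιι_mem _ _))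
    (ιι_mem _ _)
  have hu2 : u ∈ ⋀[ℂ]^2 W := Submodule.add_mem _ (Submodule.add_mem _ (ιι_mem _ _) (ιι_mem _ _))
    (ιι_mem _ _)
  have haa : ∀ (a : W) (x : ExteriorAlgebra ℂ W), ι ℂ a * (ι ℂ a * x) = 0 := fun a x => by
    rw [← mul_assoc, ι_sq_zero, zero_mul]
  have hab' : ∀ (a b : W), ι ℂ a * (ι ℂ b * ι ℂ a) = 0 := fun a b => by
    have := aba a b 1
    rwa [mul_one] at this
  have hdw : D.d w = 0 := by
    rw [hw, map_add, map_add, D.d_ι_mul, D.d_ι_mul, D.d_ι_mul, hde, hde, hde, hc0, hc1, hc2,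
      hab', hab', hab']
    simp
  have hdu : D.d u = 0 := by
    rw [hu, map_add, map_add, D.d_ι_mul, D.d_ι_mul, D.d_ι_mul, hde, hde, hde, hc0, hc1, hc2,
      haa, haa, haa]
    simp
  -- linear independence of the six 1-forms
  have hli : LinearIndependent ℂ ![e 0, c1, e 1, c2, e 2, c0] := by
    rw [Fintype.linearIndependent_iff]
    intro g hg
    simp only [Fin.sum_univ_succ, Fin.sum_univ_zero, Matrix.cons_val_zero, Matrix.cons_val_succ,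
      add_zero] at hg
    have h1 : g 5 • c0 + g 1 • c1 + g 3 • c2 ∈ D.Z := by
      have : g 5 • c0 + g 1 • c1 + g 3 • c2 = -(g 0 • e 0 + g 2 • e 1 + g 4 • e 2) := by
        rw [eq_neg_iff_add_eq_zero, ← hg]
        change _ = g 0 • e 0 + (g 1 • c1 + (g 2 • e 1 + (g 3 • c2 + (g 4 • e 2 + g 5 • c0))))
        abel
      rw [this]
      exact D.Z.neg_mem (D.Z.add_mem (D.Z.add_mem (D.Z.smul_mem _ (heZ 0)) (D.Z.smul_mem _ (heZ 1)))
        (D.Z.smul_mem _ (heZ 2)))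
    obtain ⟨g5, g1, g3⟩ := hind _ _ _ h1
    have h2 : g 0 • e 0 + g 2 • e 1 + g 4 • e 2 = 0 := by
      rw [← hg]
      change _ = g 0 • e 0 + (g 1 • c1 + (g 2 • e 1 + (g 3 • c2 + (g 4 • e 2 + g 5 • c0))))
      rw [g5, g1, g3]
      simp only [zero_smul, zero_add, add_zero]
      abel
    have h3 := Fintype.linearIndependent_iff.1 heli ![g 0, g 2, g 4] (by
      rw [Fin.sum_univ_three]; exact h2)
    intro i
    fin_cases i
    · exact h3 0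
    · exact g1
    · exact h3 1
    · exact g3
    · exact h3 2
    · exact g5
  refine ⟨w, hw2, hdw, ?_, ?_⟩
  · have hc3 := cube (a := ι ℂ (e 0) * ι ℂ c1) (b := ι ℂ (e 1) * ι ℂ c2) (c := ι ℂ (e 2) * ι ℂ c0)
      (two_comm (ιι_mem _ _) _) (two_comm (ιι_mem _ _) _) (two_comm (ιι_mem _ _) _)
      (ιι_sq _ _) (ιι_sq _ _) (ιι_sq _ _)
    rw [hw, hc3]
    intro h0
    have h1 := ιMulti_ne_zero hli
    apply h1
    have h2 : ιMulti ℂ 6 ![e 0, c1, e 1, c2, e 2, c0] =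
        ι ℂ (e 0) * ι ℂ c1 * (ι ℂ (e 1) * ι ℂ c2) * (ι ℂ (e 2) * ι ℂ c0) := by
      rw [ιMulti_apply]
      simp [List.ofFn_succ, mul_assoc]
    rw [h2]
    have h3 : (6 : ℂ) • (ι ℂ (e 0) * ι ℂ c1 * (ι ℂ (e 1) * ι ℂ c2) * (ι ℂ (e 2) * ι ℂ c0)) = 0 := by
      rw [← h0, Algebra.smul_def, map_ofNat]
    exact (smul_eq_zero.1 h3).resolve_left (by norm_num)
  · intro hHL
    -- the primitive of `w ∧ u`
    have hprim : D.d (ι ℂ c0 * (ι ℂ c1 * ι ℂ c2)) = w * u := by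
      have t1 : D.d (ι ℂ c0 * (ι ℂ c1 * ι ℂ c2)) =
          (ι ℂ (e 1) * ι ℂ (e 2)) * (ι ℂ c1 * ι ℂ c2) - ι ℂ c0 * ((ι ℂ (e 2) * ι ℂ (e 0)) * ι ℂ c2)
          + ι ℂ c0 * (ι ℂ c1 * (ι ℂ (e 0) * ι ℂ (e 1))) := by
        rw [D.d_ι_mul, D.d_ι_mul, hc0, hc1, hc2]; noncomm_ring
      have r1 : ι ℂ c0 * ((ι ℂ (e 2) * ι ℂ (e 0)) * ι ℂ c2) =
          -(ι ℂ (e 2) * ι ℂ c0 * (ι ℂ (e 0) * ι ℂ c2)) := by
        have s : ι ℂ c0 * ι ℂ (e 2) = -(ι ℂ (e 2) * ι ℂ c0) := ι_mul_ι _ _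
        calc ι ℂ c0 * ((ι ℂ (e 2) * ι ℂ (e 0)) * ι ℂ c2)
            = (ι ℂ c0 * ι ℂ (e 2)) * (ι ℂ (e 0) * ι ℂ c2) := by noncomm_ring
          _ = _ := by rw [s]; noncomm_ring
      have r2 : ι ℂ c0 * (ι ℂ c1 * (ι ℂ (e 0) * ι ℂ (e 1))) =
          ι ℂ (e 0) * ι ℂ c1 * (ι ℂ (e 1) * ι ℂ c0) := by
        have s1 : ι ℂ c0 * ι ℂ c1 = -(ι ℂ c1 * ι ℂ c0) := ι_mul_ι _ _
        have s2 : ι ℂ (e 1) * ι ℂ c1 = -(ι ℂ c1 * ι ℂ (e 1)) := ι_mul_ι _ _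
        calc ι ℂ c0 * (ι ℂ c1 * (ι ℂ (e 0) * ι ℂ (e 1)))
            = (ι ℂ c0 * ι ℂ c1) * (ι ℂ (e 0) * ι ℂ (e 1)) := by noncomm_ring
          _ = (ι ℂ (e 0) * ι ℂ (e 1)) * (ι ℂ c0 * ι ℂ c1) := (two_comm (ιι_mem _ _) _)
          _ = -(ι ℂ (e 0) * (ι ℂ (e 1) * ι ℂ c1) * ι ℂ c0) := by rw [s1]; noncomm_ring
          _ = _ := by rw [s2]; noncomm_ring
      have r3 : (ι ℂ (e 1) * ι ℂ (e 2)) * (ι ℂ c1 * ι ℂ c2) =
          ι ℂ (e 1) * ι ℂ c2 * (ι ℂ (e 2) * ι ℂ c1) := by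
        have s1 : ι ℂ c1 * ι ℂ c2 = -(ι ℂ c2 * ι ℂ c1) := ι_mul_ι _ _
        have s2 : ι ℂ (e 2) * ι ℂ c2 = -(ι ℂ c2 * ι ℂ (e 2)) := ι_mul_ι _ _
        calc (ι ℂ (e 1) * ι ℂ (e 2)) * (ι ℂ c1 * ι ℂ c2)
            = -(ι ℂ (e 1) * (ι ℂ (e 2) * ι ℂ c2) * ι ℂ c1) := by rw [s1]; noncomm_ring
          _ = _ := by rw [s2]; noncomm_ring
      have q1 : ι ℂ (e 0) * ι ℂ c1 * (ι ℂ (e 0) * ι ℂ c2) = 0 := by
        rw [mul_assoc]; exact aba _ _ _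
      have q2 : ι ℂ (e 0) * ι ℂ c1 * (ι ℂ (e 2) * ι ℂ c1) = 0 := by
        rw [mul_assoc, hab', mul_zero]
      have q3 : ι ℂ (e 1) * ι ℂ c2 * (ι ℂ (e 0) * ι ℂ c2) = 0 := by
        rw [mul_assoc, hab', mul_zero]
      have q4 : ι ℂ (e 1) * ι ℂ c2 * (ι ℂ (e 1) * ι ℂ c0) = 0 := by
        rw [mul_assoc]; exact aba _ _ _
      have q5 : ι ℂ (e 2) * ι ℂ c0 * (ι ℂ (e 1) * ι ℂ c0) = 0 := by
        rw [mul_assoc, hab', mul_zero]
      have q6 : ι ℂ (e 2) * ι ℂ c0 * (ι ℂ (e 2) * ι ℂ c1) = 0 := by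
        rw [mul_assoc]; exact aba _ _ _
      rw [t1, r1, r2, r3, hw, hu]
      simp only [mul_add, add_mul, q1, q2, q3, q4, q5, q6]
      abel
    obtain ⟨y, hy⟩ := hHL u hu2 hdu (fun v hv hdv => by
      rw [pow_one, ← hprim]
      have h1 : D.d (ι ℂ c0 * (ι ℂ c1 * ι ℂ c2)) * v = D.d (v * (ι ℂ c0 * (ι ℂ c1 * ι ℂ c2))) := by
        rw [D.d_closed_mul hv hdv, two_comm hv]
      rw [h1]
      exact huni _ (mul_mem_deg (m := 2) (n := 3) hv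
        (mul_mem_deg (m := 1) (n := 2) (ι_mem _) (ιι_mem _ _))))
    have hmem := hB.le (D.mem_B_of_exact hu2 hy)
    have h1 := ic_w2 hzZ hmem
    rw [hu, map_add, map_add, ic_ι_mul, ic_ι_mul, ic_ι_mul, ic_ι, ic_ι, ic_ι, hz0, hz1, hz2,
      hzZ _ (heZ 0), hzZ _ (heZ 1), hzZ _ (heZ 2)] at h1
    simp only [zero_smul, map_zero, mul_zero, sub_zero, add_zero, map_one, mul_one, zero_sub,
      neg_eq_zero] at h1
    exact heli.ne_zero 0 ((ι_eq_zero_iff _).1 h1)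

end Pool.Agent.KS6_76.NM
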