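import Pool.Agent.KS6_76.NM.Uni

/-!
# Products
-/

set_option autoImplicit false

namespace Pool.Agent.KS6_76.NM

open ExteriorAlgebra Module

variable {W : Type*} [AddCommGroup W] [Module ℂ W] [FiniteDimensional ℂ W]

theorem w2_inf {S T : Submodule ℂ W} {x : ExteriorAlgebra ℂ W} (hS : x ∈ w2 S) (hT : x ∈ w2 T) :
    x ∈ w2 (S ⊓ T) := by
  refine mem_w2 (w2_le hS) fun z hz => ?_
  have h1 : z ∈ S.dualAnnihilator ⊔ T.dualAnnihilator := by
    rw [← Subspace.dualAnnihilator_inf_eq]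
    exact (Submodule.mem_dualAnnihilator z).2 hz
  obtain ⟨a, ha, b, hb, rfl⟩ := Submodule.mem_sup.1 h1
  have e : ic (a + b) x = ic a x + ic b x := by
    simp only [ic, map_add, LinearMap.add_apply]
  rw [e, ic_w2 ((Submodule.mem_dualAnnihilator a).1 ha) hS,
    ic_w2 ((Submodule.mem_dualAnnihilator b).1 hb) hT, add_zero]

omit [FiniteDimensional ℂ W] in
theorem w2_bot : w2 (⊥ : Submodule ℂ W) = ⊥ := by
  rw [eq_bot_iff]
  refine Submodule.span_le.2 ?_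
  rintro x ⟨a, ha, b, hb, rfl⟩
  rw [(Submodule.mem_bot ℂ).1 ha, map_zero, zero_mul]
  exact Submodule.zero_mem _

omit [FiniteDimensional ℂ W] in
theorem map_w2_of_eq {S : Submodule ℂ W} {f : W →ₗ[ℂ] W} {ε : ℂ} (hf : ∀ v ∈ S, f v = ε • v)
    {x : ExteriorAlgebra ℂ W} (hx : x ∈ w2 S) :
    ExteriorAlgebra.map f x = (ε * ε) • x := by
  induction hx using Submodule.span_induction with
  | mem x hx =>
    obtain ⟨a, ha, b, hb, rfl⟩ := hx
    rw [map_mul, map_apply_ι, map_apply_ι, hf a ha, hf b hb, map_smul, map_smul, smul_mul_smul_comm]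
  | zero => simp
  | add a b _ _ ha hb => rw [map_add, ha, hb, smul_add]
  | smul c a _ ha => rw [map_smul, ha, smul_comm]

theorem product (D : Dif W) {m : ℕ} (hW : finrank ℂ W = 2 * (m + 2)) {W₁ W₂ : Submodule ℂ W}
    (hc : IsCompl W₁ W₂) (h₁ : ∀ v ∈ W₁, D.d (ι ℂ v) ∈ w2 W₁)
    (h₂ : ∀ v ∈ W₂, D.d (ι ℂ v) ∈ w2 W₂) {N : ℕ} (hN : D.stage N = ⊤)
    (hna : ∃ v ∈ W₁, D.d (ι ℂ v) ≠ 0) (hne : W₂ ≠ ⊥) {a b : ExteriorAlgebra ℂ W}
    (ha : a ∈ w2 W₁) (hb : b ∈ w2 W₂) (hdab : D.d (a + b) = 0) (hab : (a + b) ^ (m + 2) ≠ 0) :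
    ¬ HL D m (a + b) := by
  intro hHL
  have hw : a + b ∈ ⋀[ℂ]^2 W := Submodule.add_mem _ (w2_le ha) (w2_le hb)
  have hZstage : ∀ k, D.Z ≤ D.stage (k + 1) := by
    intro k v hv
    change D.d (ι ℂ v) ∈ w2 (D.stage k)
    rw [D.mem_Z.1 hv]
    exact Submodule.zero_mem _
  have hstage1 : D.stage 1 ≤ D.Z := by
    intro v hv
    have h3 : D.d (ι ℂ v) ∈ w2 (⊥ : Submodule ℂ W) := hv
    rw [w2_bot] at h3
    exact D.mem_Z.2 ((Submodule.mem_bot ℂ).1 h3)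
  have h12 : ∀ x, x ∈ w2 W₁ → x ∈ w2 W₂ → x = 0 := by
    intro x hx hx'
    have h3 := w2_inf hx hx'
    rw [hc.inf_eq_bot, w2_bot] at h3
    exact (Submodule.mem_bot ℂ).1 h3
  have hdecomp : ∀ v : W, ∃ v₁ ∈ W₁, ∃ v₂ ∈ W₂, v₁ + v₂ = v := by
    intro v
    have : v ∈ W₁ ⊔ W₂ := by rw [hc.sup_eq_top]; trivial
    exact Submodule.mem_sup.1 this
  -- the central vector `z`
  obtain ⟨z, hz0, hzZ, hz2, hzc⟩ : ∃ z : Dual ℂ W, z ≠ 0 ∧ (∀ v ∈ D.Z, z v = 0) ∧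
      (∀ v ∈ W₂, z v = 0) ∧ ∀ v, ic z (D.d (ι ℂ v)) = 0 := by
    have hex : ∃ k, D.stage k ⊔ W₂ = ⊤ := ⟨N, by rw [hN, top_sup_eq]⟩
    classical
    have hk := Nat.find_spec hex
    have hmin := fun j => Nat.find_min hex (m := j)
    obtain ⟨j, hj⟩ : ∃ j, Nat.find hex = j + 2 := by
      have h0 : Nat.find hex ≠ 0 := by
        intro h
        rw [h] at hk
        have hk' : (⊥ : Submodule ℂ W) ⊔ W₂ = ⊤ := hk
        rw [bot_sup_eq] at hk'
        obtain ⟨v, hv, hdv⟩ := hna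
        have h3 : v ∈ W₁ ⊓ W₂ := ⟨hv, by rw [hk']; trivial⟩
        rw [hc.inf_eq_bot, Submodule.mem_bot] at h3
        rw [h3, map_zero, map_zero] at hdv
        exact hdv rfl
      have h1 : Nat.find hex ≠ 1 := by
        intro h
        rw [h] at hk
        obtain ⟨v, hv, hdv⟩ := hna
        have h3 : v ∈ D.stage 1 ⊔ W₂ := by rw [hk]; trivial
        obtain ⟨ζ, hζ, u, hu, hsum⟩ := Submodule.mem_sup.1 h3
        have h4 : D.d (ι ℂ v) = D.d (ι ℂ u) := by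
          rw [← hsum, map_add, map_add, D.mem_Z.1 (hstage1 hζ), zero_add]
        exact hdv (h12 _ (h₁ v hv) (h4 ▸ h₂ u hu))
      exact ⟨Nat.find hex - 2, by omega⟩
    have hlt : D.stage (j + 1) ⊔ W₂ ≠ ⊤ := hmin (j + 1) (by omega)
    rw [hj] at hk
    obtain ⟨v, hv⟩ : ∃ v, v ∉ D.stage (j + 1) ⊔ W₂ := by
      by_contra hcon
      push Not at hcon
      exact hlt (eq_top_iff.2 fun v _ => hcon v)
    obtain ⟨z, hz, hzv⟩ := exists_dual hv
    refine ⟨z, ?_, fun v hv => hz v (Submodule.mem_sup_left (hZstage j hv)),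
      fun v hv => hz v (Submodule.mem_sup_right hv), fun η => ?_⟩
    · rintro rfl
      exact zero_ne_one hzv
    · have h3 : η ∈ D.stage (j + 2) ⊔ W₂ := by rw [hk]; trivial
      obtain ⟨η₁, h1, η₂, h2, rfl⟩ := Submodule.mem_sup.1 h3
      have h4 : D.d (ι ℂ η₁) ∈ w2 (D.stage (j + 1)) := h1
      rw [map_add, map_add, map_add,
        ic_w2 (fun v hv => hz v (Submodule.mem_sup_left hv)) h4,
        ic_w2 (fun v hv => hz v (Submodule.mem_sup_right hv)) (h₂ η₂ h2), add_zero]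
  -- a closed 1-form on the second factor
  obtain ⟨β, hβ2, hβZ, hβ0⟩ : ∃ β ∈ W₂, β ∈ D.Z ∧ β ≠ 0 := by
    have hex : ∃ k, D.stage k ⊓ W₂ ≠ ⊥ := ⟨N, by rw [hN, top_inf_eq]; exact hne⟩
    classical
    have hk := Nat.find_spec hex
    have hmin := fun j => Nat.find_min hex (m := j)
    obtain ⟨j, hj⟩ : ∃ j, Nat.find hex = j + 1 := by
      have h0 : Nat.find hex ≠ 0 := by
        intro h
        rw [h] at hk
        exact hk (show (⊥ : Submodule ℂ W) ⊓ W₂ = ⊥ from bot_inf_eq _)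
      exact ⟨Nat.find hex - 1, by omega⟩
    rw [hj] at hk
    obtain ⟨β, hβ, hβ0⟩ := Submodule.exists_mem_ne_zero_of_ne_bot hk
    have hbot : D.stage j ⊓ W₂ = ⊥ := by
      have := hmin j (by omega)
      push Not at this
      exact this
    refine ⟨β, hβ.2, ?_, hβ0⟩
    have h3 : D.d (ι ℂ β) ∈ w2 (D.stage j) := hβ.1
    have h4 := w2_inf h3 (h₂ β hβ.2)
    rw [hbot, w2_bot] at h4
    exact D.mem_Z.2 ((Submodule.mem_bot ℂ).1 h4)
  -- the projection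
  obtain ⟨π, hπ1, hπ2⟩ : ∃ π : W →ₗ[ℂ] W, (∀ v ∈ W₁, π v = (1 : ℂ) • v) ∧
      ∀ v ∈ W₂, π v = (0 : ℂ) • v := by
    refine ⟨W₁.subtype ∘ₗ LinearMap.fst ℂ W₁ W₂ ∘ₗ
      (Submodule.prodEquivOfIsCompl W₁ W₂ hc).symm.toLinearMap, ?_, ?_⟩
    · intro v hv
      have := Submodule.prodEquivOfIsCompl_symm_apply_left W₁ W₂ hc ⟨v, hv⟩
      simp only [LinearMap.comp_apply, LinearEquiv.coe_coe, one_smul]
      rw [this]; rfl
    · intro v hv
      have := Submodule.prodEquivOfIsCompl_symm_apply_right W₁ W₂ hc ⟨v, hv⟩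
      simp only [LinearMap.comp_apply, LinearEquiv.coe_coe, zero_smul]
      rw [this]; rfl
  have hP1 : ∀ x ∈ w2 W₁, ExteriorAlgebra.map π x = x := fun x hx => by
    rw [map_w2_of_eq hπ1 hx]; simp
  have hP2 : ∀ x ∈ w2 W₂, ExteriorAlgebra.map π x = 0 := fun x hx => by
    rw [map_w2_of_eq hπ2 hx]; simp
  have hPd : ∀ x, D.d (ExteriorAlgebra.map π x) = ExteriorAlgebra.map π (D.d x) := by
    have hgen : ∀ v, D.d (ExteriorAlgebra.map π (ι ℂ v)) =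
        ExteriorAlgebra.map π (D.d (ι ℂ v)) := by
      intro v
      obtain ⟨v₁, hv₁, v₂, hv₂, rfl⟩ := hdecomp v
      rw [map_apply_ι, map_add, hπ1 _ hv₁, hπ2 _ hv₂, one_smul, zero_smul, add_zero, map_add,
        map_add, map_add, hP1 _ (h₁ _ hv₁), hP2 _ (h₂ _ hv₂), add_zero]
    intro x
    induction x using induct with
    | h0 r => rw [AlgHom.commutes, D.d_algebraMap, map_zero]
    | hadd a b ha hb => simp only [map_add, ha, hb]
    | hι v x hx =>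
      have e1 : ExteriorAlgebra.map π (ι ℂ v * x) = ι ℂ (π v) * ExteriorAlgebra.map π x := by
        rw [map_mul, map_apply_ι]
      have hg := hgen v
      rw [map_apply_ι] at hg
      rw [e1, D.d_ι_mul, D.d_ι_mul, map_sub, map_mul, map_mul, map_apply_ι, hg, hx]
  have hlie : ∀ f : Dual ℂ W, (∀ v ∈ W₁, f v = 0) → ∀ v ∈ ⋀[ℂ]^2 W,
      ExteriorAlgebra.map π (D.lie f v) = 0 := by
    intro f hf
    have h3 : ∀ v, ExteriorAlgebra.map π (D.lie f (ι ℂ v)) = 0 := by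
      intro v
      obtain ⟨v₁, hv₁, v₂, hv₂, rfl⟩ := hdecomp v
      obtain ⟨y, hy, h⟩ := exists_ic_w2 f (h₂ _ hv₂)
      rw [map_add, map_add, D.lie_ι, D.lie_ι, ic_w2 hf (h₁ _ hv₁), zero_add, h, map_apply_ι,
        hπ2 _ hy, zero_smul, map_zero]
    intro v hv
    refine two_induct (P := fun v => ExteriorAlgebra.map π (D.lie f v) = 0) (by simp) ?_ ?_ hv
    · intro a b ha hb
      rw [map_add, map_add, ha, hb, add_zero]
    · intro a b
      rw [D.lie_mul, map_add, map_mul, map_mul, h3, h3, zero_mul, mul_zero, add_zero]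
  -- `i_z v ∈ W₁` for closed `v`
  have hiz : ∀ v ∈ ⋀[ℂ]^2 W, D.d v = 0 → mu v z ∈ W₁ := by
    intro v hv hdv
    refine mem_of_dual fun f hf => ?_
    rw [mu_skew hv]
    have h3 : π (mu v f) ∈ D.Z := by
      rw [D.mem_Z, ← map_apply_ι, hPd, ι_mu hv]
      have h4 := hlie f hf v hv
      rw [D.lie_apply, hdv, map_zero, zero_add] at h4
      exact h4
    have h5 : z (mu v f) = z (π (mu v f)) := by
      obtain ⟨v₁, hv₁, v₂, hv₂, h⟩ := hdecomp (mu v f)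
      rw [← h, map_add, map_add, hπ1 _ hv₁, hπ2 _ hv₂, hz2 _ hv₂, one_smul, zero_smul, add_zero,
        add_zero]
    rw [h5, hzZ _ h3, neg_zero]
  -- the sign
  have hsign : ∀ γ ∈ W₁, (a + b) ^ (m + 1) * ι ℂ γ * ι ℂ β = 0 := by
    intro γ hγ
    let s : W →ₗ[ℂ] W := LinearMap.id - (2 : ℂ) • π
    have hs1 : ∀ v ∈ W₁, s v = (-1 : ℂ) • v := by
      intro v hv
      change v - (2 : ℂ) • π v = (-1 : ℂ) • v
      rw [hπ1 _ hv]; module
    have hs2 : ∀ v ∈ W₂, s v = (1 : ℂ) • v := by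
      intro v hv
      change v - (2 : ℂ) • π v = (1 : ℂ) • v
      rw [hπ2 _ hv]; module
    have hσ : ExteriorAlgebra.map s (a + b) = a + b := by
      rw [map_add, map_w2_of_eq hs1 ha,
        map_w2_of_eq hs2 hb]
      norm_num
    have ht : (a + b) ^ (m + 1) * ι ℂ γ * ι ℂ β ∈ ⋀[ℂ]^(finrank ℂ W) W := by
      have := mul_mem_deg (mul_mem_deg (pow_mem_deg hw (m + 1)) (ι_mem γ)) (ι_mem β)
      rwa [show 2 * (m + 1) + 1 + 1 = finrank ℂ W by omega] at this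
    have ht' : (a + b) ^ (m + 2) ∈ ⋀[ℂ]^(finrank ℂ W) W := by
      have := pow_mem_deg hw (m + 2)
      rwa [← hW] at this
    obtain ⟨c, hc'⟩ := exists_smul_of_top ht ht' hab
    have h3 : ExteriorAlgebra.map s ((a + b) ^ (m + 1) * ι ℂ γ * ι ℂ β) =
        (a + b) ^ (m + 1) * ι ℂ γ * ι ℂ β := by
      rw [hc', map_smul, map_pow, hσ]
    rw [map_mul, map_mul, map_pow, hσ, map_apply_ι, map_apply_ι, hs1 _ hγ, hs2 _ hβ2, one_smul,
      map_smul, mul_smul_comm, smul_mul_assoc, neg_smul, one_smul] at h3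
    have h4 : (2 : ℂ) • ((a + b) ^ (m + 1) * ι ℂ γ * ι ℂ β) = 0 := by
      rw [two_smul]
      nth_rewrite 1 [← h3]
      exact neg_add_cancel _
    exact (smul_eq_zero.1 h4).resolve_left two_ne_zero
  -- the exact form
  have hmem := core hW D hw hdab hHL hzc hβZ (hzZ _ hβZ) fun v hv hdv =>
    hsign _ (hiz v hv hdv)
  have hα1 : mu (a + b) z ∈ W₁ := hiz _ hw hdab
  have hα0 := mu_ne_zero hW hw hab hz0
  have hα2 : mu (a + b) z ∉ W₂ := fun h => by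
    have h3 : mu (a + b) z ∈ W₁ ⊓ W₂ := ⟨hα1, h⟩
    rw [hc.inf_eq_bot, Submodule.mem_bot] at h3
    exact hα0 h3
  have hβ1 : β ∉ W₁ := fun h => by
    have h3 : β ∈ W₁ ⊓ W₂ := ⟨h, hβ2⟩
    rw [hc.inf_eq_bot, Submodule.mem_bot] at h3
    exact hβ0 h3
  obtain ⟨f₁, hf₁, hf₁α⟩ := exists_dual hα2
  obtain ⟨f₂, hf₂, hf₂β⟩ := exists_dual hβ1
  have hB : ∀ x ∈ D.B, ic f₂ (ic f₁ x) = 0 := by
    rintro _ ⟨v, rfl⟩
    obtain ⟨v₁, hv₁, v₂, hv₂, rfl⟩ := hdecomp v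
    change ic f₂ (ic f₁ (D.d (ι ℂ (v₁ + v₂)))) = 0
    obtain ⟨y, hy, h⟩ := exists_ic_w2 f₁ (h₁ _ hv₁)
    rw [map_add, map_add, map_add, ic_w2 hf₁ (h₂ _ hv₂), add_zero, h, ic_ι, hf₂ _ hy, map_zero]
  have h3 := hB _ hmem
  rw [ic_ι_mul, hf₁α, one_smul, ic_ι, hf₁ _ hβ2, map_zero, mul_zero, sub_zero, ic_ι, hf₂β,
    map_one] at h3
  exact one_ne_zero h3

end Pool.Agent.KS6_76.NM
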