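import Pool.Agent.KS6_76.NM.Dif

/-!
# Symplectic forms and contractions
-/

set_option autoImplicit false

namespace Pool.Agent.KS6_76.NM

open ExteriorAlgebra

variable {W : Type*} [AddCommGroup W] [Module ℂ W]

/-- `mu w z = i_z w`, as a vector of `W`. -/
noncomputable def mu (w : ExteriorAlgebra ℂ W) : Module.Dual ℂ W →ₗ[ℂ] W :=
  ExteriorAlgebra.ιInv ∘ₗ
    (CliffordAlgebra.contractLeft (Q := (0 : QuadraticForm ℂ W))).flip w

theorem ι_mu {w : ExteriorAlgebra ℂ W} (hw : w ∈ ⋀[ℂ]^2 W) (z : Module.Dual ℂ W) :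
    ι ℂ (mu w z) = ic z w := by
  obtain ⟨y, hy⟩ := mem_one.1 (ic_mem (k := 1) z hw)
  have h1 : mu w z = ExteriorAlgebra.ιInv (ic z w) := rfl
  rw [h1, ← hy, ι_leftInverse y]

theorem mu_skew {w : ExteriorAlgebra ℂ W} (hw : w ∈ ⋀[ℂ]^2 W) (f z : Module.Dual ℂ W) :
    f (mu w z) = -z (mu w f) := by
  have h := ic_comm f z w
  rw [← ι_mu hw z, ← ι_mu hw f, ic_ι, ic_ι, ← map_neg] at h
  exact (algebraMap_inj W _ _).1 h

section

variable [FiniteDimensional ℂ W] {m : ℕ} (hW : Module.finrank ℂ W = 2 * (m + 2))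
include hW

theorem contract_top {w : ExteriorAlgebra ℂ W} (hw : w ∈ ⋀[ℂ]^2 W) (z : Module.Dual ℂ W) (β : W) :
    z β • w ^ (m + 2) = -(((m : ℂ) + 2) • (w ^ (m + 1) * ic z w * ι ℂ β)) := by
  have h0 : w ^ (m + 2) * ι ℂ β = 0 :=
    eq_zero_of_deg (n := 2 * (m + 2) + 1) (by omega) (mul_mem_deg (pow_mem_deg hw _) (ι_mem β))
  have h1 : ic z (w ^ (m + 2) * ι ℂ β) = 0 := by rw [h0, map_zero]
  rw [ic_mul, ic_pow_succ z hw (m + 1), inv_pow hw, ic_ι, ← Algebra.commutes, ← Algebra.smul_def,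
    smul_mul_assoc] at h1
  have h2 : (((m + 1 : ℕ) : ℂ) + 1) = (m : ℂ) + 2 := by push_cast; ring
  rw [h2] at h1
  exact eq_neg_of_add_eq_zero_right h1

theorem contract_mu {w : ExteriorAlgebra ℂ W} (hw : w ∈ ⋀[ℂ]^2 W) {z : Module.Dual ℂ W} {β : W}
    (hβ : z β = 0) : w ^ (m + 1) * ι ℂ (mu w z) * ι ℂ β = 0 := by
  have h := contract_top hW hw z β
  rw [hβ, zero_smul, eq_comm, neg_eq_zero, smul_eq_zero] at h
  rw [ι_mu hw]
  refine h.resolve_left ?_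
  have : ((m : ℂ) + 2) = ((m + 2 : ℕ) : ℂ) := by push_cast; ring
  rw [this]
  exact_mod_cast (show m + 2 ≠ 0 by omega)

theorem contract_two {w v : ExteriorAlgebra ℂ W} (hw : w ∈ ⋀[ℂ]^2 W) (hv : v ∈ ⋀[ℂ]^2 W)
    {z : Module.Dual ℂ W} {β : W} (hβ : z β = 0) :
    ((m : ℂ) + 1) • (w ^ m * (ι ℂ (mu w z) * ι ℂ β) * v) = -(w ^ (m + 1) * ic z v * ι ℂ β) := by
  have h0 : w ^ (m + 1) * (v * ι ℂ β) = 0 :=
    eq_zero_of_deg (n := 2 * (m + 1) + (2 + 1)) (by omega)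
      (mul_mem_deg (pow_mem_deg hw _) (mul_mem_deg hv (ι_mem β)))
  have h1 : ic z (w ^ (m + 1) * (v * ι ℂ β)) = 0 := by rw [h0, map_zero]
  rw [ic_mul, ic_pow_succ z hw m, inv_pow hw, ic_mul, ic_ι, hβ, map_zero, mul_zero, add_zero,
    smul_mul_assoc] at h1
  have h2 : w ^ m * ic z w * (v * ι ℂ β) = w ^ m * (ι ℂ (mu w z) * ι ℂ β) * v := by
    rw [ι_mu hw, two_comm hv]
    noncomm_ring
  rw [h2, ← mul_assoc (w ^ (m + 1))] at h1
  exact eq_neg_of_add_eq_zero_left h1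

theorem mu_ne_zero {w : ExteriorAlgebra ℂ W} (hw : w ∈ ⋀[ℂ]^2 W) (hwn : w ^ (m + 2) ≠ 0)
    {z : Module.Dual ℂ W} (hz : z ≠ 0) : mu w z ≠ 0 := by
  intro h
  obtain ⟨v, hv⟩ : ∃ v, z v ≠ 0 := by
    by_contra hcon
    push Not at hcon
    exact hz (LinearMap.ext hcon)
  have h1 := contract_top hW hw z v
  rw [← ι_mu hw, h, map_zero, mul_zero, zero_mul, smul_zero, neg_zero] at h1
  exact (smul_eq_zero.1 h1).elim hv hwn

theorem mu_injective {w : ExteriorAlgebra ℂ W} (hw : w ∈ ⋀[ℂ]^2 W) (hwn : w ^ (m + 2) ≠ 0) :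
    Function.Injective (mu w) := by
  rw [← LinearMap.ker_eq_bot, LinearMap.ker_eq_bot']
  intro z hz
  by_contra h
  exact mu_ne_zero hW hw hwn h hz

theorem mu_surjective {w : ExteriorAlgebra ℂ W} (hw : w ∈ ⋀[ℂ]^2 W) (hwn : w ^ (m + 2) ≠ 0) :
    Function.Surjective (mu w) :=
  (LinearMap.injective_iff_surjective_of_finrank_eq_finrank
    (Subspace.dual_finrank_eq)).1 (mu_injective hW hw hwn)

/-- The hard Lefschetz property in degree two, at `w`: if `w ^ m ∧ u ∧ v = 0` for all closed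
2-forms `v`, the closed 2-form `u` is exact. -/
def HL (D : Dif W) (m : ℕ) (w : ExteriorAlgebra ℂ W) : Prop :=
  ∀ u ∈ ⋀[ℂ]^2 W, D.d u = 0 → (∀ v ∈ ⋀[ℂ]^2 W, D.d v = 0 → w ^ m * u * v = 0) → ∃ y, D.d y = u

/-- The central argument: under the hard Lefschetz property, `i_z w ∧ β` is exact if
`w ^ (n-1) ∧ i_z v ∧ β = 0` for all closed 2-forms `v`. -/
theorem core (D : Dif W) {w : ExteriorAlgebra ℂ W} (hw : w ∈ ⋀[ℂ]^2 W) (hdw : D.d w = 0)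
    (hHL : HL D m w) {z : Module.Dual ℂ W} (hz : ∀ v, ic z (D.d (ι ℂ v)) = 0) {β : W}
    (hβ : β ∈ D.Z) (hzβ : z β = 0)
    (h : ∀ v ∈ ⋀[ℂ]^2 W, D.d v = 0 → w ^ (m + 1) * ι ℂ (mu v z) * ι ℂ β = 0) :
    ι ℂ (mu w z) * ι ℂ β ∈ D.B := by
  have hclosed : D.d (ι ℂ (mu w z) * ι ℂ β) = 0 := by
    rw [D.d_ι_mul, D.mem_Z.1 hβ, mul_zero, sub_zero, ι_mu hw, D.d_ic hz hdw, zero_mul]
  obtain ⟨y, hy⟩ := hHL _ (ιι_mem _ _) hclosed (fun v hv hdv => by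
    have h1 := contract_two hW hw hv hzβ
    rw [← ι_mu hv, h v hv hdv, neg_zero, smul_eq_zero] at h1
    refine h1.resolve_left ?_
    exact_mod_cast Nat.succ_ne_zero m)
  exact D.mem_B_of_exact (ιι_mem _ _) hy

end

end Pool.Agent.KS6_76.NM
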