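import Pool.Agent.KS6_76.NM.Uni

/-!
# The top coefficient and the wedge pairing
-/

set_option autoImplicit false

namespace Pool.Agent.KS6_76.NM

open ExteriorAlgebra Module Set Set.powersetCard

variable (W : Type*) [AddCommGroup W] [Module ℂ W] [FiniteDimensional ℂ W]

/-- The coefficient of top degree. -/
noncomputable def top : ExteriorAlgebra ℂ W →ₗ[ℂ] ℂ :=
  liftAlternating (Pi.single (finrank ℂ W) (Module.finBasis ℂ W).det)

variable {W}

theorem top_ιMulti_self (v : Fin (finrank ℂ W) → W) :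
    top W (ιMulti ℂ (finrank ℂ W) v) = (Module.finBasis ℂ W).det v := by
  rw [top, liftAlternating_apply_ιMulti, Pi.single_eq_same]

theorem top_deg {n : ℕ} (hn : n ≠ finrank ℂ W) {x : ExteriorAlgebra ℂ W} (hx : x ∈ ⋀[ℂ]^n W) :
    top W x = 0 := by
  rw [← ιMulti_span_fixedDegree] at hx
  induction hx using Submodule.span_induction with
  | mem x hx =>
    obtain ⟨v, rfl⟩ := hx
    rw [top, liftAlternating_apply_ιMulti, Pi.single_eq_of_ne hn]
    rfl
  | zero => exact map_zero _
  | add x y _ _ hx hy => rw [map_add, hx, hy, add_zero]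
  | smul c x _ hx => rw [map_smul, hx, smul_zero]

/-- The monomial basis. -/
noncomputable abbrev bE (W : Type*) [AddCommGroup W] [Module ℂ W] [FiniteDimensional ℂ W] :
    Module.Basis (Finset (Fin (finrank ℂ W))) ℂ (ExteriorAlgebra ℂ W) :=
  (Module.finBasis ℂ W).ExteriorAlgebra

theorem bE_mem (s : Finset (Fin (finrank ℂ W))) : bE W s ∈ ⋀[ℂ]^s.card W := by
  rw [bE, ExteriorAlgebra.basis_apply]
  exact ιMulti_range ℂ _ ⟨_, rfl⟩

theorem top_bE_univ : top W (bE W Finset.univ) ≠ 0 := by
  have hc : (Finset.univ : Finset (Fin (finrank ℂ W))).card = finrank ℂ W := by simp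
  rw [bE, ExteriorAlgebra.basis_apply_ofCard (Module.finBasis ℂ W) hc]
  rw [ιMulti_family, top_ιMulti_self]
  have hli : LinearIndependent ℂ
      ((Module.finBasis ℂ W) ∘ (ofFinEmbEquiv.symm (ofCard hc))) :=
    (Module.finBasis ℂ W).linearIndependent.comp _ (ofFinEmbEquiv.symm (ofCard hc)).injective
  have hspan : ⊤ ≤ Submodule.span ℂ
      (Set.range ((Module.finBasis ℂ W) ∘ (ofFinEmbEquiv.symm (ofCard hc)))) := by
    rw [hli.span_eq_top_of_card_eq_finrank' (by simp)]
  have := (Module.finBasis ℂ W).isUnit_det (Basis.mk hli hspan)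
  rw [Basis.coe_mk] at this
  exact this.ne_zero

theorem top_bE_mul (T S : Finset (Fin (finrank ℂ W))) (h : T ≠ S) :
    top W (bE W T * bE W Sᶜ) = 0 := by
  by_cases hd : Disjoint T Sᶜ
  · have h1 := ExteriorAlgebra.basis_mul_of_disjoint (Module.finBasis ℂ W)
      (ofCard (rfl : T.card = T.card)) (ofCard (rfl : (Sᶜ).card = (Sᶜ).card)) hd
    change bE W T * bE W Sᶜ = _ at h1
    rw [h1, Units.smul_def, map_zsmul]
    have h2 : (disjUnion (s := ofCard (rfl : T.card = T.card))
      (t := ofCard (rfl : (Sᶜ).card = (Sᶜ).card)) hd : Finset (Fin (finrank ℂ W))).card =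
        T.card + (Sᶜ).card := by simp [Finset.card_union_of_disjoint hd]
    have h3 : T.card + (Sᶜ).card ≠ finrank ℂ W := by
      rw [← Finset.card_union_of_disjoint hd]
      intro h6
      have : T ∪ Sᶜ = Finset.univ := by
        apply Finset.eq_univ_of_card
        rw [h6]; simp
      apply h
      apply Finset.Subset.antisymm
      · intro i hi
        by_contra hiS
        exact (Finset.disjoint_left.1 hd) hi (Finset.mem_compl.2 hiS)
      · intro i hi
        have : i ∈ T ∪ Sᶜ := by rw [this]; exact Finset.mem_univ i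
        rcases Finset.mem_union.1 this with h | h
        · exact h
        · exact absurd hi (Finset.mem_compl.1 h)
    have h4 := bE_mem (disjUnion (s := ofCard (rfl : T.card = T.card))
      (t := ofCard (rfl : (Sᶜ).card = (Sᶜ).card)) hd : Finset (Fin (finrank ℂ W)))
    rw [h2] at h4
    rw [top_deg h3 h4, smul_zero]
  · have h1 := ExteriorAlgebra.basis_mul_of_not_disjoint (Module.finBasis ℂ W)
      (ofCard (rfl : T.card = T.card)) (ofCard (rfl : (Sᶜ).card = (Sᶜ).card)) hd
    change bE W T * bE W Sᶜ = _ at h1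
    rw [h1, map_zero]

theorem top_bE_mul_self (S : Finset (Fin (finrank ℂ W))) : top W (bE W S * bE W Sᶜ) ≠ 0 := by
  have hd : Disjoint S Sᶜ := disjoint_compl_right
  have h1 := ExteriorAlgebra.basis_mul_of_disjoint (Module.finBasis ℂ W)
    (ofCard (rfl : S.card = S.card)) (ofCard (rfl : (Sᶜ).card = (Sᶜ).card)) hd
  change bE W S * bE W Sᶜ = _ at h1
  rw [h1, Units.smul_def, map_zsmul]
  have h3 : (disjUnion (s := ofCard (rfl : S.card = S.card))
      (t := ofCard (rfl : (Sᶜ).card = (Sᶜ).card)) hd : Finset (Fin (finrank ℂ W))).card =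
        S.card + (Sᶜ).card := by simp [Finset.card_union_of_disjoint hd]
  have h2 : (disjUnion (s := ofCard (rfl : S.card = S.card))
      (t := ofCard (rfl : (Sᶜ).card = (Sᶜ).card)) hd : Finset (Fin (finrank ℂ W))) =
      Finset.univ := by
    apply Finset.eq_univ_of_card
    rw [h3, Finset.card_add_card_compl]
  rw [h2]
  rw [zsmul_eq_mul]
  refine mul_ne_zero ?_ top_bE_univ
  exact_mod_cast (Units.ne_zero _)

/-- The wedge pairing is nondegenerate. -/
theorem eq_zero_of_top_mul (x : ExteriorAlgebra ℂ W) (h : ∀ y, top W (x * y) = 0) : x = 0 := by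
  apply (bE W).ext_elem
  intro S
  have h1 := h (bE W Sᶜ)
  rw [← (bE W).sum_repr x, Finset.sum_mul, map_sum, Finset.sum_eq_single S] at h1
  · rw [smul_mul_assoc, map_smul, smul_eq_mul] at h1
    rw [map_zero]
    exact (mul_eq_zero.1 h1).resolve_right (top_bE_mul_self S)
  · intro T _ hT
    rw [smul_mul_assoc, map_smul, top_bE_mul T S hT, smul_zero]
  · intro h; exact absurd (Finset.mem_univ S) h

/-- `top` does not change under the sign involution if the dimension is even. -/
theorem top_inv (hN : Even (finrank ℂ W)) (x : ExteriorAlgebra ℂ W) :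
    top W (inv x) = top W x := by
  have : top W ∘ₗ (inv (W := W)).toLinearMap = top W := by
    apply (bE W).ext
    intro S
    change top W (inv (bE W S)) = top W (bE W S)
    rw [inv_deg (bE_mem S), map_smul]
    by_cases h6 : S.card = finrank ℂ W
    · have h1 : (-1 : ℂ) ^ S.card = 1 := by rw [h6]; exact hN.neg_one_pow
      rw [h1, one_smul]
    · rw [top_deg h6 (bE_mem S), smul_zero]
  exact LinearMap.congr_fun this x

theorem top_odd (hN : Even (finrank ℂ W)) {x : ExteriorAlgebra ℂ W} (hx : inv x = -x) :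
    top W x = 0 := by
  have := top_inv hN x
  rw [hx, map_neg] at this
  exact self_eq_neg.1 this.symm

theorem top_ne_zero {x : ExteriorAlgebra ℂ W} (hx : x ∈ ⋀[ℂ]^(finrank ℂ W) W) (hx0 : x ≠ 0) :
    top W x ≠ 0 := by
  intro h
  have h2 : (bE W Finset.univ) ∈ ⋀[ℂ]^(finrank ℂ W) W := by
    have := bE_mem (W := W) Finset.univ
    rwa [Finset.card_univ, Fintype.card_fin] at this
  obtain ⟨c, hc⟩ := exists_smul_of_top h2 hx hx0
  apply top_bE_univ (W := W)
  rw [hc, map_smul, h, smul_zero]

/-! ### Homogeneous components -/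

omit [FiniteDimensional ℂ W]

/-- The component of degree `k`. -/
noncomputable def comp (k : ℕ) : ExteriorAlgebra ℂ W →ₗ[ℂ] ExteriorAlgebra ℂ W :=
  GradedAlgebra.proj (fun i : ℕ => ⋀[ℂ]^i W) k

theorem comp_mem (k : ℕ) (x : ExteriorAlgebra ℂ W) : comp k x ∈ ⋀[ℂ]^k W := by
  rw [comp, GradedAlgebra.proj_apply]
  exact Submodule.coe_mem _

theorem comp_same {k : ℕ} {x : ExteriorAlgebra ℂ W} (hx : x ∈ ⋀[ℂ]^k W) : comp k x = x := by
  rw [comp, GradedAlgebra.proj_apply, DirectSum.decompose_of_mem_same (fun i : ℕ => ⋀[ℂ]^i W) hx]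

theorem comp_ne {j k : ℕ} (h : j ≠ k) {x : ExteriorAlgebra ℂ W} (hx : x ∈ ⋀[ℂ]^j W) :
    comp k x = 0 := by
  rw [comp, GradedAlgebra.proj_apply, DirectSum.decompose_of_mem_ne (fun i : ℕ => ⋀[ℂ]^i W) hx h]

theorem graded_induct {P : ExteriorAlgebra ℂ W → Prop} (h0 : P 0)
    (hadd : ∀ x y, P x → P y → P (x + y)) (hmem : ∀ k, ∀ x ∈ ⋀[ℂ]^k W, P x)
    (x : ExteriorAlgebra ℂ W) : P x :=
  DirectSum.Decomposition.inductionOn (fun i : ℕ => ⋀[ℂ]^i W) h0 (fun m => hmem _ m m.2)
    (fun a b => hadd a b) x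

theorem comp_inv (k : ℕ) (x : ExteriorAlgebra ℂ W) : comp k (inv x) = inv (comp k x) := by
  refine graded_induct (P := fun x => comp k (inv x) = inv (comp k x)) (by simp) ?_ ?_ x
  · intro a b ha hb
    simp only [map_add, ha, hb]
  · intro j x hx
    rw [inv_deg hx, map_smul]
    by_cases h : j = k
    · subst h
      rw [comp_same hx, inv_deg hx]
    · rw [comp_ne h hx, smul_zero, map_zero]

theorem Dif.comp_d (D : Dif W) (k : ℕ) (x : ExteriorAlgebra ℂ W) :
    comp (k + 1) (D.d x) = D.d (comp k x) := by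
  refine graded_induct (P := fun x => comp (k + 1) (D.d x) = D.d (comp k x)) (by simp) ?_ ?_ x
  · intro a b ha hb
    simp only [map_add, ha, hb]
  · intro j x hx
    by_cases h : j = k
    · subst h
      rw [comp_same hx, comp_same (D.d_mem hx)]
    · rw [comp_ne h hx, comp_ne (by omega) (D.d_mem hx), map_zero]

theorem Dif.comp_zero_d (D : Dif W) (x : ExteriorAlgebra ℂ W) : comp 0 (D.d x) = 0 := by
  refine graded_induct (P := fun x => comp 0 (D.d x) = 0) (by simp) ?_ ?_ x
  · intro a b ha hb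
    simp only [map_add, ha, hb, add_zero]
  · intro j x hx
    exact comp_ne (by omega) (D.d_mem hx)

/-- The odd components of an even form vanish. -/
theorem comp_odd {x : ExteriorAlgebra ℂ W} (hx : inv x = x) (k : ℕ) : comp (2 * k + 1) x = 0 := by
  have h1 := comp_inv (2 * k + 1) x
  rw [hx, inv_deg (comp_mem _ x), pow_succ, pow_mul] at h1
  norm_num at h1
  have h2 : (2 : ℂ) • comp (2 * k + 1) x = 0 := by
    rw [two_smul]
    nth_rewrite 1 [h1]
    exact neg_add_cancel _
  exact (smul_eq_zero.1 h2).resolve_left two_ne_zero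

theorem sum_comp [FiniteDimensional ℂ W] (x : ExteriorAlgebra ℂ W) :
    ∑ k ∈ Finset.range (finrank ℂ W + 1), comp k x = x := by
  refine graded_induct (P := fun x => ∑ k ∈ Finset.range (finrank ℂ W + 1), comp k x = x)
    (by simp) ?_ ?_ x
  · intro a b ha hb
    simp only [map_add, Finset.sum_add_distrib, ha, hb]
  · intro j x hx
    by_cases h : j < finrank ℂ W + 1
    · rw [Finset.sum_eq_single_of_mem j (Finset.mem_range.2 h), comp_same hx]
      intro k _ hk
      exact comp_ne (Ne.symm hk) hx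
    · rw [eq_zero_of_deg (n := j) (by omega) hx]
      simp

end Pool.Agent.KS6_76.NM
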