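import Pool.Agent.KS6_76.NM.Sym

/-!
# 2-step nilpotent algebras: the hard Lefschetz property
-/

set_option autoImplicit false

namespace Pool.Agent.KS6_76.NM

open ExteriorAlgebra

variable {W : Type*} [AddCommGroup W] [Module ℂ W]

theorem exists_ic_w2 {S : Submodule ℂ W} (z : Module.Dual ℂ W) {x : ExteriorAlgebra ℂ W}
    (hx : x ∈ w2 S) : ∃ y ∈ S, ic z x = ι ℂ y := by
  induction hx using Submodule.span_induction with
  | mem x hx =>
    obtain ⟨a, ha, b, hb, rfl⟩ := hx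
    refine ⟨z a • b - z b • a, S.sub_mem (S.smul_mem _ hb) (S.smul_mem _ ha), ?_⟩
    rw [ic_ι_mul, ic_ι, map_sub, map_smul, map_smul, ← Algebra.commutes, ← Algebra.smul_def]
  | zero => exact ⟨0, S.zero_mem, by simp⟩
  | add a b _ _ ha hb =>
    obtain ⟨y, hy, h⟩ := ha
    obtain ⟨y', hy', h'⟩ := hb
    exact ⟨y + y', S.add_mem hy hy', by rw [map_add, h, h', map_add]⟩
  | smul c a _ ha =>
    obtain ⟨y, hy, h⟩ := ha
    exact ⟨c • y, S.smul_mem _ hy, by rw [map_smul, h, map_smul]⟩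

section

variable [FiniteDimensional ℂ W]

/-- Divisibility by a 1-form. -/
theorem exists_factor {S : Submodule ℂ W} {a : W} (ha : a ≠ 0) {x : ExteriorAlgebra ℂ W}
    (hx : x ∈ w2 S) (h : ι ℂ a * x = 0) : ∃ y ∈ S, x = ι ℂ a * ι ℂ y := by
  obtain ⟨g, -, hg⟩ := exists_dual (S := (⊥ : Submodule ℂ W)) (v := a)
    (by rwa [Submodule.mem_bot])
  obtain ⟨y, hy, hgy⟩ := exists_ic_w2 g hx
  refine ⟨y, hy, ?_⟩
  have h1 : ic g (ι ℂ a * x) = 0 := by rw [h, map_zero]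
  rw [ic_ι_mul, hg, one_smul, hgy] at h1
  exact sub_eq_zero.1 h1

theorem triple_zero {S : Submodule ℂ W} (hS : Module.finrank ℂ S ≤ 2) {a : W} (ha : a ∈ S)
    {x : ExteriorAlgebra ℂ W} (hx : x ∈ w2 S) : ι ℂ a * x = 0 := by
  induction hx using Submodule.span_induction with
  | mem x hx =>
    obtain ⟨b, hb, c, hc, rfl⟩ := hx
    have h1 : (ι ℂ (⟨a, ha⟩ : S) * (ι ℂ (⟨b, hb⟩ : S) * ι ℂ (⟨c, hc⟩ : S))) = 0 :=
      eq_zero_of_deg (n := 1 + 2) (by omega) (mul_mem_deg (ι_mem _) (ιι_mem _ _))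
    have h2 := congrArg (ExteriorAlgebra.map S.subtype) h1
    simpa using h2
  | zero => rw [mul_zero]
  | add a b _ _ ha hb => rw [mul_add, ha, hb, add_zero]
  | smul c a _ ha => rw [mul_smul_comm, ha, smul_zero]

end

namespace Dif

variable (D : Dif W)

theorem d_w2 {x : ExteriorAlgebra ℂ W} (hx : x ∈ w2 D.Z) : D.d x = 0 := by
  induction hx using Submodule.span_induction with
  | mem x hx =>
    obtain ⟨a, ha, b, hb, rfl⟩ := hx
    rw [D.d_ι_mul, D.mem_Z.1 ha, D.mem_Z.1 hb, zero_mul, mul_zero, sub_zero]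
  | zero => exact map_zero _
  | add a b _ _ ha hb => rw [map_add, ha, hb, add_zero]
  | smul c a _ ha => rw [map_smul, ha, smul_zero]

variable [FiniteDimensional ℂ W] {D}

omit [FiniteDimensional ℂ W] in
theorem central {z : Module.Dual ℂ W} (h2 : D.B ≤ w2 D.Z) (hz : z ∈ D.Z.dualAnnihilator) (v : W) :
    ic z (D.d (ι ℂ v)) = 0 :=
  ic_w2 (fun a ha => (Submodule.mem_dualAnnihilator z).1 hz a ha) (h2 (D.mem_B.2 ⟨v, rfl⟩))

omit [FiniteDimensional ℂ W] in
theorem mu_mem_Z (h2 : D.B ≤ w2 D.Z) {v : ExteriorAlgebra ℂ W} (hv : v ∈ ⋀[ℂ]^2 W)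
    (hdv : D.d v = 0) {z : Module.Dual ℂ W} (hz : z ∈ D.Z.dualAnnihilator) : mu v z ∈ D.Z := by
  rw [D.mem_Z, ι_mu hv]
  exact D.d_ic (central h2 hz) hdv

/-- If the exact 2-forms are forms on `T`, then `i_z v ∈ T` for closed `v` and `z ∈ [𝔤, 𝔤]`. -/
theorem mu_mem {T : Submodule ℂ W} (hT : D.B ≤ w2 T) {v : ExteriorAlgebra ℂ W}
    (hv : v ∈ ⋀[ℂ]^2 W) (hdv : D.d v = 0) {z : Module.Dual ℂ W}
    (hz : z ∈ D.Z.dualAnnihilator) : mu v z ∈ T := by
  refine mem_of_dual fun f hf => ?_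
  rw [mu_skew hv]
  have h1 : mu v f ∈ D.Z := by
    rw [D.mem_Z, ι_mu hv]
    exact D.d_ic (fun v => ic_w2 hf (hT (D.mem_B.2 ⟨v, rfl⟩))) hdv
  rw [(Submodule.mem_dualAnnihilator z).1 hz _ h1, neg_zero]

theorem finrank_B_add_Z : Module.finrank ℂ D.B + Module.finrank ℂ D.Z = Module.finrank ℂ W :=
  LinearMap.finrank_range_add_finrank_ker _

variable {m : ℕ} (hW : Module.finrank ℂ W = 2 * (m + 2))
include hW

theorem finrank_L {w : ExteriorAlgebra ℂ W} (hw : w ∈ ⋀[ℂ]^2 W) (hwn : w ^ (m + 2) ≠ 0) :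
    Module.finrank ℂ (D.Z.dualAnnihilator.map (mu w)) = Module.finrank ℂ D.B := by
  rw [LinearEquiv.finrank_eq
    (Submodule.equivMapOfInjective (mu w) (mu_injective hW hw hwn) D.Z.dualAnnihilator).symm]
  have h1 := Subspace.finrank_add_finrank_dualAnnihilator_eq D.Z
  have h2 := D.finrank_B_add_Z
  omega

omit hW in
/-- The relation that expresses that `w` is closed. -/
theorem closed_relation (h2 : D.B ≤ w2 D.Z) {w : ExteriorAlgebra ℂ W} (hw : w ∈ ⋀[ℂ]^2 W)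
    (hdw : D.d w = 0) {k : ℕ} (b : Module.Basis (Fin k) ℂ D.B) :
    ∃ z : Fin k → Module.Dual ℂ W, (∀ j, z j ∈ D.Z.dualAnnihilator) ∧ (∀ j, z j ≠ 0) ∧
      ∑ j, ι ℂ (mu w (z j)) * (b j : ExteriorAlgebra ℂ W) = 0 := by
  choose η hη using fun j => D.mem_B.1 (b j).2
  let q : W →ₗ[ℂ] D.B := (D.d ∘ₗ ι ℂ).rangeRestrict
  have hq : ∀ v, (q v : ExteriorAlgebra ℂ W) = D.d (ι ℂ v) := fun v => rfl
  have hqη : ∀ j, q (η j) = b j := fun j => Subtype.ext (by rw [hq, hη])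
  let z : Fin k → Module.Dual ℂ W := fun j => b.coord j ∘ₗ q
  have hz : ∀ j v, z j v = b.repr (q v) j := fun j v => rfl
  have hzann : ∀ j, z j ∈ D.Z.dualAnnihilator := by
    intro j
    rw [Submodule.mem_dualAnnihilator]
    intro v hv
    have : q v = 0 := Subtype.ext (by rw [hq]; exact D.mem_Z.1 hv)
    rw [hz, this, map_zero]
    rfl
  have hzη : ∀ i j, z j (η i) = if i = j then 1 else 0 := by
    intro i j
    rw [hz, hqη, b.repr_self, Finsupp.single_apply]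
  have hzsum : ∀ f ∈ D.Z.dualAnnihilator, f = ∑ j, f (η j) • z j := by
    intro f hf
    ext v
    have h1 : v - ∑ j, z j v • η j ∈ D.Z := by
      rw [D.mem_Z]
      have h3 : q (v - ∑ j, z j v • η j) = 0 := by
        rw [map_sub, map_sum]
        simp only [map_smul, hqη, hz]
        rw [b.sum_repr, sub_self]
      rw [← hq, h3]; rfl
    have h3 := (Submodule.mem_dualAnnihilator f).1 hf _ h1
    rw [map_sub, map_sum, sub_eq_zero] at h3
    rw [h3, LinearMap.sum_apply]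
    refine Finset.sum_congr rfl fun j _ => ?_
    rw [map_smul, LinearMap.smul_apply, smul_eq_mul, smul_eq_mul, mul_comm]
  refine ⟨z, hzann, fun j h => ?_, ?_⟩
  · have := hzη j j
    rw [h, if_pos rfl] at this
    exact zero_ne_one this
  · have hmem : w + ∑ j, ι ℂ (mu w (z j)) * ι ℂ (η j) ∈ w2 D.Z := by
      refine mem_w2 (Submodule.add_mem _ hw (Submodule.sum_mem _ fun j _ => ιι_mem _ _))
        fun f hf => ?_
      have hf' : f ∈ D.Z.dualAnnihilator := (Submodule.mem_dualAnnihilator f).2 hf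
      rw [map_add, map_sum, ← ι_mu hw]
      have h3 : ∀ j, ic f (ι ℂ (mu w (z j)) * ι ℂ (η j)) = -(f (η j) • ι ℂ (mu w (z j))) := by
        intro j
        rw [ic_ι_mul, ic_ι, hf _ (mu_mem_Z h2 hw hdw (hzann j)), zero_smul, zero_sub,
          ← Algebra.commutes, ← Algebra.smul_def]
      have h4 := congrArg (mu w) (hzsum f hf')
      rw [map_sum] at h4
      simp only [map_smul] at h4
      simp only [h3]
      rw [h4, map_sum, Finset.sum_neg_distrib]
      simp only [map_smul]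
      rw [add_neg_cancel]
    have h3 := D.d_w2 hmem
    rw [map_add, hdw, zero_add, map_sum] at h3
    have h4 : ∀ j, D.d (ι ℂ (mu w (z j)) * ι ℂ (η j)) = -(ι ℂ (mu w (z j)) * b j) := by
      intro j
      rw [D.d_ι_mul, D.mem_Z.1 (mu_mem_Z h2 hw hdw (hzann j)), zero_mul, zero_sub, hη]
    simp only [h4, Finset.sum_neg_distrib, neg_eq_zero] at h3
    exact h3

theorem w2_L_le (h2 : D.B ≤ w2 D.Z) {w : ExteriorAlgebra ℂ W} (hw : w ∈ ⋀[ℂ]^2 W)
    (hdw : D.d w = 0) (hHL : HL D m w) : w2 (D.Z.dualAnnihilator.map (mu w)) ≤ D.B := by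
  refine Submodule.span_le.2 ?_
  rintro x ⟨_, ⟨z, hz, rfl⟩, _, ⟨z', hz', rfl⟩, rfl⟩
  have hz : z ∈ D.Z.dualAnnihilator := hz
  have hz' : z' ∈ D.Z.dualAnnihilator := hz'
  have hann : ∀ {f : Module.Dual ℂ W}, f ∈ D.Z.dualAnnihilator → ∀ v ∈ D.Z, f v = 0 :=
    fun hf v hv => (Submodule.mem_dualAnnihilator _).1 hf v hv
  refine core hW D hw hdw hHL (central h2 hz) (mu_mem_Z h2 hw hdw hz')
    (hann hz _ (mu_mem_Z h2 hw hdw hz')) fun v hv hdv => ?_
  have h1 := contract_mu hW hw (z := z') (β := mu v z) (hann hz' _ (mu_mem_Z h2 hv hdv hz))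
  rw [mul_assoc, ι_mul_ι, mul_neg, ← mul_assoc, h1, neg_zero]

end Dif

end Pool.Agent.KS6_76.NM

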