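import Pool.Agent.KS6_76.NM.Two

/-!
# 2-step nilpotent algebras: the case distinction
-/

set_option autoImplicit false

namespace Pool.Agent.KS6_76.NM

open ExteriorAlgebra Module

variable {W : Type*} [AddCommGroup W] [Module ℂ W]

namespace Dif

variable {D : Dif W} [FiniteDimensional ℂ W]

variable {m : ℕ} (hW : Module.finrank ℂ W = 2 * (m + 2))
include hW

theorem exists_xy (h2 : D.B ≤ w2 D.Z) {w : ExteriorAlgebra ℂ W} (hw : w ∈ ⋀[ℂ]^2 W)
    (hdw : D.d w = 0) (hwn : w ^ (m + 2) ≠ 0)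
    (hle : w2 (D.Z.dualAnnihilator.map (mu w)) ≤ D.B) (hc1 : 1 ≤ finrank ℂ D.B)
    (hc : finrank ℂ D.B ≤ 2) :
    ∃ x ∈ D.Z.dualAnnihilator.map (mu w), ∃ y ∈ D.Z,
      ι ℂ x * ι ℂ y ∉ w2 (D.Z.dualAnnihilator.map (mu w)) ∧
      D.B ≤ w2 (D.Z.dualAnnihilator.map (mu w)) ⊔ Submodule.span ℂ {ι ℂ x * ι ℂ y} := by
  set L := D.Z.dualAnnihilator.map (mu w) with hL
  have hfL : finrank ℂ L = finrank ℂ D.B := finrank_L hW hw hwn
  have hfw : finrank ℂ (w2 L) + 1 = finrank ℂ D.B := by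
    rw [finrank_w2, hfL]
    have : finrank ℂ D.B = 1 ∨ finrank ℂ D.B = 2 := by omega
    rcases this with h | h <;> rw [h] <;> rfl
  obtain ⟨ρ, hρ, hρL⟩ : ∃ ρ ∈ D.B, ρ ∉ w2 L := by
    by_contra hcon
    push Not at hcon
    have := Submodule.finrank_mono (show D.B ≤ w2 L from hcon)
    omega
  have hlt : w2 L < w2 L ⊔ Submodule.span ℂ {ρ} := by
    refine lt_of_le_of_ne le_sup_left fun h => hρL ?_
    rw [h]
    exact (le_sup_right : _ ≤ w2 L ⊔ Submodule.span ℂ {ρ}) (Submodule.mem_span_singleton_self ρ)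
  have hle2 : w2 L ⊔ Submodule.span ℂ {ρ} ≤ D.B :=
    sup_le hle ((Submodule.span_singleton_le_iff_mem _ _).2 hρ)
  have heq : w2 L ⊔ Submodule.span ℂ {ρ} = D.B := by
    refine Submodule.eq_of_le_of_finrank_le hle2 ?_
    have := Submodule.finrank_lt_finrank_of_lt hlt
    omega
  let b := Basis.mkFinConsOfLE ρ hρ (finBasis ℂ (w2 L)) hle
    (fun c x hx h => by
      by_contra hc0
      refine hρL ?_
      have h1 : c • ρ ∈ w2 L := by
        rw [eq_neg_of_add_eq_zero_left h]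
        exact Submodule.neg_mem _ hx
      have h3 := (w2 L).smul_mem c⁻¹ h1
      rwa [smul_smul, inv_mul_cancel₀ hc0, one_smul] at h3)
    (fun z hz => by
      rw [← heq] at hz
      obtain ⟨a, ha, b, hb, rfl⟩ := Submodule.mem_sup.1 hz
      obtain ⟨c, rfl⟩ := Submodule.mem_span_singleton.1 hb
      refine ⟨-c, ?_⟩
      rw [neg_smul, add_assoc, add_neg_cancel, add_zero]
      exact ha)
  have hb : (b : Fin (finrank ℂ (w2 L) + 1) → D.B) =
      Fin.cons ⟨ρ, hρ⟩ (Submodule.inclusion hle ∘ (finBasis ℂ (w2 L))) :=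
    Basis.coe_mkFinConsOfLE _ _ _ _ _ _
  obtain ⟨z, hzann, hz0, hsum⟩ := D.closed_relation h2 hw hdw b
  have hmem : ∀ j, mu w (z j) ∈ L := fun j => ⟨z j, hzann j, rfl⟩
  have hfL2 : finrank ℂ L ≤ 2 := by omega
  rw [Fin.sum_univ_succ, Finset.sum_eq_zero (fun j _ => by
    have h1 : ((b j.succ : D.B) : ExteriorAlgebra ℂ W) ∈ w2 L := by
      rw [hb, Fin.cons_succ]
      exact (finBasis ℂ (w2 L) j).2
    exact triple_zero hfL2 (hmem _) h1), add_zero] at hsum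
  have hb0 : ((b 0 : D.B) : ExteriorAlgebra ℂ W) = ρ := by rw [hb, Fin.cons_zero]
  rw [hb0] at hsum
  obtain ⟨y, hy, hρy⟩ := exists_factor (mu_ne_zero hW hw hwn (hz0 0)) (h2 hρ) hsum
  refine ⟨mu w (z 0), hmem 0, y, hy, ?_, ?_⟩
  · rw [← hρy]; exact hρL
  · rw [← hρy, heq]

theorem tail (hm : 1 ≤ m) (h2 : D.B ≤ w2 D.Z) {w : ExteriorAlgebra ℂ W} (hw : w ∈ ⋀[ℂ]^2 W)
    (hdw : D.d w = 0) (hwn : w ^ (m + 2) ≠ 0) (hHL : HL D m w)
    (hc1 : 1 ≤ finrank ℂ D.B) {x : W} (hx : x ∈ D.Z.dualAnnihilator.map (mu w)) {y : W}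
    (hy : y ∈ D.Z) (hxy : ι ℂ x * ι ℂ y ∉ w2 (D.Z.dualAnnihilator.map (mu w)))
    (hB : D.B ≤ w2 (D.Z.dualAnnihilator.map (mu w)) ⊔ Submodule.span ℂ {ι ℂ x * ι ℂ y}) :
    False := by
  have hle := w2_L_le hW h2 hw hdw hHL
  have hfL : finrank ℂ (D.Z.dualAnnihilator.map (mu w)) = finrank ℂ D.B := finrank_L hW hw hwn
  have hann : ∀ {f : Module.Dual ℂ W}, f ∈ D.Z.dualAnnihilator → ∀ v ∈ D.Z, f v = 0 :=
    fun hf v hv => (Submodule.mem_dualAnnihilator _).1 hf v hv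
  set L := D.Z.dualAnnihilator.map (mu w) with hL
  have hyL : y ∉ L := fun h => hxy (w2_mul_mem hx h)
  set T := L ⊔ Submodule.span ℂ {y} with hT
  have hLT : L ≤ T := le_sup_left
  have hyT : y ∈ T := (le_sup_right : _ ≤ L ⊔ Submodule.span ℂ {y})
    (Submodule.mem_span_singleton_self y)
  have hBT : D.B ≤ w2 T := by
    refine hB.trans (sup_le (w2_mono hLT) ?_)
    rw [Submodule.span_singleton_le_iff_mem]
    exact w2_mul_mem (hLT hx) hyT
  have hlt : L < T := lt_of_le_of_ne hLT fun h => hyL (h ▸ hyT)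
  have hfT1 := Submodule.finrank_lt_finrank_of_lt hlt
  have hfT2 : finrank ℂ T ≤ finrank ℂ L + 1 := by
    have h1 := Submodule.finrank_add_le_finrank_add_finrank L (Submodule.span ℂ {y})
    have h3 : finrank ℂ (Submodule.span ℂ {y}) = 1 :=
      finrank_span_singleton (fun h => hyL (h ▸ L.zero_mem))
    rw [← hT] at h1
    omega
  have hfT : finrank ℂ T = finrank ℂ D.B + 1 := by omega
  -- the exact forms
  have hex : ∀ z ∈ D.Z.dualAnnihilator, ∀ β ∈ D.Z, w ^ (m + 1) * ι ℂ y * ι ℂ β = 0 →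
      ι ℂ (mu w z) * ι ℂ β ∈ D.B := by
    intro z hz β hβ h0
    refine core hW D hw hdw hHL (central h2 hz) hβ (hann hz _ hβ) fun v hv hdv => ?_
    obtain ⟨_, ⟨z', hz', rfl⟩, u, hu, hsum⟩ := Submodule.mem_sup.1 (mu_mem hBT hv hdv hz)
    obtain ⟨a, rfl⟩ := Submodule.mem_span_singleton.1 hu
    have hz' : z' ∈ D.Z.dualAnnihilator := hz'
    rw [← hsum, map_add, map_smul, mul_add, add_mul, contract_mu hW hw (hann hz' _ hβ), zero_add,
      mul_smul_comm, smul_mul_assoc, h0, smul_zero]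
  have hyy : w ^ (m + 1) * ι ℂ y * ι ℂ y = 0 := by rw [mul_assoc, ι_sq_zero, mul_zero]
  -- `w2 T ≤ B`
  have hTB : w2 T ≤ D.B := by
    refine Submodule.span_le.2 ?_
    rintro _ ⟨a, ha, b, hb, rfl⟩
    obtain ⟨l, hl, u, hu, rfl⟩ := Submodule.mem_sup.1 ha
    obtain ⟨l', hl', u', hu', rfl⟩ := Submodule.mem_sup.1 hb
    obtain ⟨s, rfl⟩ := Submodule.mem_span_singleton.1 hu
    obtain ⟨s', rfl⟩ := Submodule.mem_span_singleton.1 hu'
    have e : ι ℂ (l + s • y) * ι ℂ (l' + s' • y) =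
        ι ℂ l * ι ℂ l' + s' • (ι ℂ l * ι ℂ y) - s • (ι ℂ l' * ι ℂ y) := by
      have e1 : ι ℂ y * ι ℂ l' = -(ι ℂ l' * ι ℂ y) := ι_mul_ι _ _
      simp only [map_add, map_smul, mul_add, add_mul, smul_mul_assoc, mul_smul_comm, e1,
        ι_sq_zero, smul_zero, add_zero, smul_neg]
      abel
    rw [e]
    obtain ⟨z, hz, rfl⟩ := hl
    obtain ⟨z', hz', rfl⟩ := hl'
    refine D.B.sub_mem (D.B.add_mem ?_ (D.B.smul_mem _ (hex z hz y hy hyy)))
      (D.B.smul_mem _ (hex z' hz' y hy hyy))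
    exact hle (w2_mul_mem ⟨z, hz, rfl⟩ ⟨z', hz', rfl⟩)
  have hdim := Submodule.finrank_mono hTB
  rw [finrank_w2, hfT] at hdim
  have hc : finrank ℂ D.B = 1 := by
    by_contra hne
    obtain ⟨k, hk⟩ : ∃ k, finrank ℂ D.B = k + 2 := ⟨finrank ℂ D.B - 2, by omega⟩
    rw [hk, Nat.choose_two_right, Nat.add_sub_cancel] at hdim
    have h3 : k + 3 ≤ (k + 2 + 1) * (k + 2) / 2 := by
      rw [Nat.le_div_iff_mul_le two_pos]
      nlinarith
    omega
  -- the closed forms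
  have hZ : finrank ℂ D.Z ≤ 3 := by
    let φ : W →ₗ[ℂ] ExteriorAlgebra ℂ W := LinearMap.mulLeft ℂ (w ^ (m + 1) * ι ℂ y) ∘ₗ ι ℂ
    have hφ : ∀ v, φ v = w ^ (m + 1) * ι ℂ y * ι ℂ v := fun v => rfl
    have h1 := LinearMap.finrank_range_add_finrank_ker (φ.domRestrict D.Z)
    have h3 : finrank ℂ (LinearMap.range (φ.domRestrict D.Z)) ≤ 1 := by
      have h4 : LinearMap.range (φ.domRestrict D.Z) ≤ ⋀[ℂ]^(finrank ℂ W) W := by
        rintro _ ⟨v, rfl⟩
        have := mul_mem_deg (mul_mem_deg (pow_mem_deg hw (m + 1)) (ι_mem y)) (ι_mem (v : W))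
        rwa [show 2 * (m + 1) + 1 + 1 = finrank ℂ W by omega] at this
      have h5 := Submodule.finrank_mono h4
      rwa [exteriorPower.finrank_eq, Nat.choose_self] at h5
    have h4 : finrank ℂ (LinearMap.ker (φ.domRestrict D.Z)) ≤ 2 := by
      have h5 : (LinearMap.ker (φ.domRestrict D.Z)).map D.Z.subtype ≤ T := by
        rintro _ ⟨β, hβ, rfl⟩
        have h6 : w ^ (m + 1) * ι ℂ y * ι ℂ (β : W) = 0 := hβ
        obtain ⟨z, hz, rfl⟩ := hx
        by_cases h0 : mu w z = 0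
        · exact absurd (by rw [h0, map_zero, zero_mul]; exact Submodule.zero_mem _) hxy
        · exact mem_of_mul_mem_w2 (hLT ⟨z, hz, rfl⟩) h0 (hBT (hex z hz β β.2 h6))
      have h6 := Submodule.finrank_mono h5
      rw [Submodule.finrank_map_subtype_eq] at h6
      omega
    omega
  have := D.finrank_B_add_Z
  omega

/-- **The case distinction.** -/
theorem two_step_cases (hm : 1 ≤ m) (h2 : D.B ≤ w2 D.Z) (hne : D.B ≠ ⊥)
    {w : ExteriorAlgebra ℂ W} (hw : w ∈ ⋀[ℂ]^2 W) (hdw : D.d w = 0) (hwn : w ^ (m + 2) ≠ 0)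
    (hHL : HL D m w) : m = 1 ∧ finrank ℂ D.Z = 3 ∧ D.B = w2 D.Z := by
  have hle := w2_L_le hW h2 hw hdw hHL
  have hfL : finrank ℂ (D.Z.dualAnnihilator.map (mu w)) = finrank ℂ D.B := finrank_L hW hw hwn
  have hann : ∀ {f : Module.Dual ℂ W}, f ∈ D.Z.dualAnnihilator → ∀ v ∈ D.Z, f v = 0 :=
    fun hf v hv => (Submodule.mem_dualAnnihilator _).1 hf v hv
  have hc1 : 1 ≤ finrank ℂ D.B := Nat.one_le_iff_ne_zero.2 fun h =>
    hne (Submodule.finrank_eq_zero.1 h)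
  have hdim := Submodule.finrank_mono hle
  rw [finrank_w2, hfL] at hdim
  by_cases hc : finrank ℂ D.B ≤ 2
  · obtain ⟨x, hx, y, hy, hxy, hB⟩ := exists_xy hW h2 hw hdw hwn hle hc1 hc
    exact (tail hW hm h2 hw hdw hwn hHL hc1 hx hy hxy hB).elim
  have hc3 : finrank ℂ D.B = 3 := by
    by_contra h3
    obtain ⟨k, hk⟩ : ∃ k, finrank ℂ D.B = k + 4 := ⟨finrank ℂ D.B - 4, by omega⟩
    rw [hk, Nat.choose_two_right] at hdim
    have h4 : k + 5 ≤ (k + 4) * (k + 4 - 1) / 2 := by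
      rw [Nat.le_div_iff_mul_le two_pos, show k + 4 - 1 = k + 3 by omega]
      nlinarith
    omega
  have hBL : w2 (D.Z.dualAnnihilator.map (mu w)) = D.B := by
    refine Submodule.eq_of_le_of_finrank_le hle ?_
    rw [finrank_w2, hfL, hc3]
    decide
  have hLZ : D.Z.dualAnnihilator.map (mu w) ≤ D.Z := by
    rintro _ ⟨z, hz, rfl⟩
    exact mu_mem_Z h2 hw hdw hz
  have hZL : D.Z ≤ D.Z.dualAnnihilator.map (mu w) := by
    intro β hβ
    have h0 : D.Z.dualAnnihilator.map (mu w) ≠ ⊥ := by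
      intro h
      rw [h, finrank_bot] at hfL
      omega
    obtain ⟨x, hx, hx0⟩ := Submodule.exists_mem_ne_zero_of_ne_bot h0
    refine mem_of_mul_mem_w2 hx hx0 ?_
    obtain ⟨z, hz, rfl⟩ := hx
    have hz : z ∈ D.Z.dualAnnihilator := hz
    rw [hBL]
    refine core hW D hw hdw hHL (central h2 hz) hβ (hann hz _ hβ) fun v hv hdv => ?_
    obtain ⟨z', hz', h3⟩ := mu_mem (T := D.Z.dualAnnihilator.map (mu w)) hBL.ge hv hdv hz
    have hz' : z' ∈ D.Z.dualAnnihilator := hz'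
    rw [← h3, contract_mu hW hw (hann hz' _ hβ)]
  have hZ : D.Z = D.Z.dualAnnihilator.map (mu w) := le_antisymm hZL hLZ
  have hfZ : finrank ℂ D.Z = 3 := by
    rw [hZ, hfL, hc3]
  have := D.finrank_B_add_Z
  refine ⟨by omega, hfZ, ?_⟩
  rw [← hBL, ← hZ]

end Dif

end Pool.Agent.KS6_76.NM
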