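import Pool.Agent.KS6_76.NM.Abel

/-!
# Nilpotent algebras are unimodular
-/

set_option autoImplicit false

namespace Pool.Agent.KS6_76.NM

open ExteriorAlgebra Module

variable {W : Type*} [AddCommGroup W] [Module ℂ W]

namespace Dif

variable {D : Dif W}

theorem lie_pow_mul (X : Dual ℂ W) (N : ℕ) : ∀ i j : ℕ, ∀ a b : ExteriorAlgebra ℂ W,
    ((D.lie X) ^ i) a = 0 → ((D.lie X) ^ j) b = 0 → i + j ≤ N + 1 →
    ((D.lie X) ^ N) (a * b) = 0 := by
  induction N with
  | zero =>
    intro i j a b ha hb hij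
    have : i = 0 ∨ j = 0 := by omega
    rcases this with rfl | rfl
    · have : a = 0 := ha
      rw [this, zero_mul, map_zero]
    · have : b = 0 := hb
      rw [this, mul_zero, map_zero]
  | succ N ih =>
    intro i j a b ha hb hij
    rcases Nat.eq_zero_or_pos i with rfl | hi
    · have : a = 0 := ha
      rw [this, zero_mul, map_zero]
    rcases Nat.eq_zero_or_pos j with rfl | hj
    · have : b = 0 := hb
      rw [this, mul_zero, map_zero]
    obtain ⟨i, rfl⟩ : ∃ i', i = i' + 1 := ⟨i - 1, by omega⟩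
    obtain ⟨j, rfl⟩ : ∃ j', j = j' + 1 := ⟨j - 1, by omega⟩
    rw [pow_succ, Module.End.mul_apply, D.lie_mul, map_add,
      ih i (j + 1) _ _ (by rw [pow_succ, Module.End.mul_apply] at ha; exact ha) hb (by omega),
      ih (i + 1) j _ _ ha (by rw [pow_succ, Module.End.mul_apply] at hb; exact hb) (by omega),
      add_zero]

theorem lie_stage (X : Dual ℂ W) (k : ℕ) : ∀ v ∈ D.stage k, ((D.lie X) ^ k) (ι ℂ v) = 0 := by
  induction k with
  | zero => intro v hv; rw [(Submodule.mem_bot ℂ).1 hv, map_zero, map_zero]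
  | succ k ih =>
    intro v hv
    have h1 : D.d (ι ℂ v) ∈ w2 (D.stage k) := hv
    obtain ⟨y, hy, h⟩ := exists_ic_w2 X h1
    rw [pow_succ, Module.End.mul_apply, D.lie_ι, h]
    exact ih y hy

theorem lie_nilpotent {N : ℕ} (hN : D.stage N = ⊤) (X : Dual ℂ W) (x : ExteriorAlgebra ℂ W) :
    ∃ M, ((D.lie X) ^ M) x = 0 := by
  induction x using induct with
  | h0 r => exact ⟨1, by rw [pow_one, D.lie_algebraMap]⟩
  | hadd a b ha hb =>
    obtain ⟨M, hM⟩ := ha
    obtain ⟨M', hM'⟩ := hb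
    refine ⟨M' + M, ?_⟩
    rw [map_add, pow_add, Module.End.mul_apply, hM, map_zero, zero_add, ← pow_add, add_comm M' M,
      pow_add, Module.End.mul_apply, hM', map_zero]
  | hι v a ha =>
    obtain ⟨M, hM⟩ := ha
    exact ⟨N + M, D.lie_pow_mul X (N + M) N M _ _ (D.lie_stage X N v (by rw [hN]; trivial)) hM
      (by omega)⟩

variable [FiniteDimensional ℂ W]

theorem lie_top {N : ℕ} (hN : D.stage N = ⊤) (X : Dual ℂ W) {t : ExteriorAlgebra ℂ W}
    (ht : t ∈ ⋀[ℂ]^(finrank ℂ W) W) : D.lie X t = 0 := by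
  by_cases h0 : t = 0
  · rw [h0, map_zero]
  obtain ⟨c, hc⟩ := exists_smul_of_top (D.lie_mem X ht) ht h0
  obtain ⟨M, hM⟩ := D.lie_nilpotent hN X t
  have h1 : ∀ M : ℕ, ((D.lie X) ^ M) t = c ^ M • t := by
    intro M
    induction M with
    | zero => simp
    | succ M ih => rw [pow_succ', Module.End.mul_apply, ih, map_smul, hc, smul_smul, pow_succ]
  rw [h1] at hM
  have h2 : c = 0 := by
    rcases smul_eq_zero.1 hM with h | h
    · exact (pow_eq_zero_iff (by
        rintro rfl
        rw [pow_zero] at h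
        exact one_ne_zero h)).1 h
    · exact absurd h h0
  rw [hc, h2, zero_smul]

/-- **Unimodularity**: the forms of degree `dim - 1` are closed. -/
theorem unimodular {N : ℕ} (hN : D.stage N = ⊤) {k : ℕ} (hk : k + 1 = finrank ℂ W)
    {x : ExteriorAlgebra ℂ W} (hx : x ∈ ⋀[ℂ]^k W) : D.d x = 0 := by
  have h1 : x = ∑ i, ic ((Module.finBasis ℂ W).coord i) (ι ℂ (Module.finBasis ℂ W i) * x) := by
    have h2 : ∀ i, ic ((Module.finBasis ℂ W).coord i) (ι ℂ (Module.finBasis ℂ W i) * x) =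
        x - ι ℂ (Module.finBasis ℂ W i) * ic ((Module.finBasis ℂ W).coord i) x := by
      intro i
      rw [ic_ι_mul, Basis.coord_apply, Basis.repr_self, Finsupp.single_eq_same, one_smul]
    simp only [h2, Finset.sum_sub_distrib]
    rw [← euler_apply, euler_deg hx, Finset.sum_const, Finset.card_univ, Fintype.card_fin, ← hk,
      ← Nat.cast_smul_eq_nsmul ℂ, ← sub_smul]
    push_cast
    rw [add_sub_cancel_left, one_smul]
  rw [h1, map_sum]
  refine Finset.sum_eq_zero fun i _ => ?_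
  have h3 : ι ℂ (Module.finBasis ℂ W i) * x ∈ ⋀[ℂ]^(finrank ℂ W) W := by
    have := mul_mem_deg (ι_mem (Module.finBasis ℂ W i)) hx
    rwa [add_comm, hk] at this
  have h4 := D.lie_top hN ((Module.finBasis ℂ W).coord i) h3
  rw [D.lie_apply, eq_zero_of_deg (n := finrank ℂ W + 1) (by omega) (D.d_mem h3), map_zero,
    zero_add] at h4
  exact h4

end Dif

end Pool.Agent.KS6_76.NM
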